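import Pool.Agent.R550.TM.Defs

/-!
# Cycle matroids and linear algebra over the field with two elements
-/

set_option autoImplicit false

namespace Pool.Agent.R550.TM

open Relation Graph Submodule

/-- the boundary of an edge -/
noncomputable def bd (G : Graph ℕ ℕ) (e : ℕ) : ℕ →₀ ZMod 2 :=
  open scoped Classical in
  if h : ∃ p : ℕ × ℕ, G.IsLink e p.1 p.2 then
    Finsupp.single h.choose.1 1 + Finsupp.single h.choose.2 1 else 0

theorem bd_eq {G : Graph ℕ ℕ} {e x y : ℕ} (h : G.IsLink e x y) :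
    bd G e = Finsupp.single x 1 + Finsupp.single y 1 := by
  have h1 : ∃ p : ℕ × ℕ, G.IsLink e p.1 p.2 := ⟨(x, y), h⟩
  unfold bd
  rw [dif_pos h1]
  rcases h.eq_and_eq_or_eq_and_eq h1.choose_spec with ⟨h2, h3⟩ | ⟨h2, h3⟩
  · rw [← h2, ← h3]
  · rw [← h2, ← h3, add_comm]

theorem bd_of_not {G : Graph ℕ ℕ} {e : ℕ} (h : e ∉ E(G)) : bd G e = 0 := by
  unfold bd
  rw [dif_neg]
  rintro ⟨p, hp⟩
  exact h hp.edge_mem

theorem two_single (x : ℕ) : (Finsupp.single x 1 + Finsupp.single x 1 : ℕ →₀ ZMod 2) = 0 := by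
  rw [← Finsupp.single_add]
  simp [CharTwo.add_self_eq_zero]

theorem add_self_bd (v : ℕ →₀ ZMod 2) : v + v = 0 := by
  ext x
  exact CharTwo.add_self_eq_zero _

theorem Joined.symm {G : Graph ℕ ℕ} {Z : Set ℕ} {x y : ℕ} (h : Joined G Z x y) :
    Joined G Z y x := by
  induction h with
  | refl => exact ReflTransGen.refl
  | tail _ hs ih =>
    obtain ⟨e, he, h⟩ := hs
    exact ReflTransGen.trans (ReflTransGen.single ⟨e, he, h.symm⟩) ih

theorem Joined.mono {G : Graph ℕ ℕ} {Z Z' : Set ℕ} (hZ : Z ⊆ Z') {x y : ℕ}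
    (h : Joined G Z x y) : Joined G Z' x y := by
  induction h with
  | refl => exact ReflTransGen.refl
  | tail _ hs ih =>
    obtain ⟨e, he, h⟩ := hs
    exact ReflTransGen.tail ih ⟨e, hZ he, h⟩

theorem Joined.one {G : Graph ℕ ℕ} {Z : Set ℕ} {e x y : ℕ} (he : e ∈ Z) (h : G.IsLink e x y) :
    Joined G Z x y := ReflTransGen.single ⟨e, he, h⟩

theorem span_of_joined {G : Graph ℕ ℕ} {Z : Set ℕ} {x y : ℕ} (h : Joined G Z x y) :
    (Finsupp.single x 1 + Finsupp.single y 1 : ℕ →₀ ZMod 2) ∈ span (ZMod 2) (bd G '' Z) := by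
  induction h with
  | refl => rw [two_single]; exact zero_mem _
  | @tail b c _ hs ih =>
    obtain ⟨e, he, hl⟩ := hs
    have h1 : (Finsupp.single b 1 + Finsupp.single c 1 : ℕ →₀ ZMod 2) ∈
        span (ZMod 2) (bd G '' Z) := by
      rw [← bd_eq hl]
      exact subset_span ⟨e, he, rfl⟩
    have h2 := add_mem ih h1
    have h3 : (Finsupp.single x 1 + Finsupp.single b 1 + (Finsupp.single b 1 +
        Finsupp.single c 1) : ℕ →₀ ZMod 2) = Finsupp.single x 1 + Finsupp.single c 1 := by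
      rw [add_assoc, ← add_assoc (Finsupp.single b 1) (Finsupp.single b 1), two_single, zero_add]
    rwa [h3] at h2

open scoped Classical in
/-- the functional of the component of `x` -/
noncomputable def lam (G : Graph ℕ ℕ) (Z : Set ℕ) (x : ℕ) : (ℕ →₀ ZMod 2) →ₗ[ZMod 2] ZMod 2 :=
  Finsupp.linearCombination (ZMod 2) fun v => if Joined G Z x v then (1 : ZMod 2) else 0

open scoped Classical in
theorem lam_pair (G : Graph ℕ ℕ) (Z : Set ℕ) (x a b : ℕ) :
    lam G Z x (Finsupp.single a 1 + Finsupp.single b 1) =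
      (if Joined G Z x a then (1 : ZMod 2) else 0) + (if Joined G Z x b then 1 else 0) := by
  unfold lam
  rw [map_add, Finsupp.linearCombination_single, Finsupp.linearCombination_single, one_smul,
    one_smul]

theorem joined_of_span {G : Graph ℕ ℕ} {Z : Set ℕ} {x y : ℕ}
    (h : (Finsupp.single x 1 + Finsupp.single y 1 : ℕ →₀ ZMod 2) ∈
      span (ZMod 2) (bd G '' Z)) : Joined G Z x y := by
  classical
  by_contra hc
  have h1 : span (ZMod 2) (bd G '' Z) ≤ LinearMap.ker (lam G Z x) := by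
    rw [span_le]
    rintro _ ⟨e, he, rfl⟩
    rw [SetLike.mem_coe, LinearMap.mem_ker]
    by_cases hE : e ∈ E(G)
    · obtain ⟨a, b, hab⟩ := exists_isLink_of_mem_edgeSet hE
      rw [bd_eq hab, lam_pair]
      have h2 : Joined G Z x a ↔ Joined G Z x b :=
        ⟨fun h => ReflTransGen.tail h ⟨e, he, hab⟩, fun h => ReflTransGen.tail h ⟨e, he, hab.symm⟩⟩
      by_cases h3 : Joined G Z x a
      · rw [if_pos h3, if_pos (h2.1 h3)]
        exact CharTwo.add_self_eq_zero _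
      · rw [if_neg h3, if_neg (fun h => h3 (h2.2 h)), add_zero]
    · rw [bd_of_not hE, map_zero]
  have h2 := h1 h
  have h3 : Joined G Z x x := ReflTransGen.refl
  rw [LinearMap.mem_ker, lam_pair, if_pos h3, if_neg hc, add_zero] at h2
  exact one_ne_zero h2

theorem forest_iff {G : Graph ℕ ℕ} {I : Set ℕ} (hI : I ⊆ E(G)) :
    Forest G I ↔ LinearIndepOn (ZMod 2) (bd G) I := by
  rw [linearIndepOn_iff_notMem_span]
  constructor
  · intro h e he hs
    obtain ⟨x, y, hxy⟩ := exists_isLink_of_mem_edgeSet (hI he)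
    rw [bd_eq hxy] at hs
    exact h e he x y hxy (joined_of_span hs)
  · intro h e he x y hxy hj
    apply h e he
    rw [bd_eq hxy]
    exact span_of_joined hj

theorem Forest.mono {G : Graph ℕ ℕ} {I J : Set ℕ} (h : Forest G I) (hJ : J ⊆ I) : Forest G J :=
  fun e he x y hxy hj => h e (hJ he) x y hxy
    (hj.mono (Set.sdiff_subset_sdiff_left hJ))

theorem aug {I J : Set ℕ} {v : ℕ → (ℕ →₀ ZMod 2)} (hIf : I.Finite) (hJf : J.Finite)
    (hI : LinearIndepOn (ZMod 2) v I) (hJ : LinearIndepOn (ZMod 2) v J)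
    (h : I.ncard < J.ncard) : ∃ e ∈ J, e ∉ I ∧ LinearIndepOn (ZMod 2) v (insert e I) := by
  by_contra hc
  push Not at hc
  have h1 : span (ZMod 2) (v '' J) ≤ span (ZMod 2) (v '' I) := by
    rw [span_le]
    rintro _ ⟨e, he, rfl⟩
    by_cases heI : e ∈ I
    · exact subset_span ⟨e, heI, rfl⟩
    · by_contra hs
      exact hc e he heI ((linearIndepOn_insert heI).2 ⟨hI, hs⟩)
  have key : ∀ K : Set ℕ, K.Finite → LinearIndepOn (ZMod 2) v K →
      Module.finrank (ZMod 2) (span (ZMod 2) (v '' K)) = K.ncard := by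
    intro K hK hv
    have := hK.fintype
    have h2 := finrank_span_eq_card (R := ZMod 2) hv.linearIndependent
    rw [Set.image_eq_range, h2, Set.ncard_eq_toFinset_card', Set.toFinset_card]
  have hfin : Module.Finite (ZMod 2) (span (ZMod 2) (v '' I)) :=
    Module.Finite.span_of_finite _ (hIf.image v)
  have h2 := Submodule.finrank_mono h1
  rw [key J hJf hJ, key I hIf hI] at h2
  omega

/-- The cycle matroid of a finite graph. -/
noncomputable def cycleMatroid (G : Graph ℕ ℕ) (hG : E(G).Finite) : Matroid ℕ :=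
  (IndepMatroid.ofFinite hG (fun I => I ⊆ E(G) ∧ Forest G I)
    ⟨Set.empty_subset _, fun e he => absurd he (Set.notMem_empty e)⟩
    (fun I J h hIJ => ⟨hIJ.trans h.1, h.2.mono hIJ⟩)
    (by
      rintro I J ⟨hI, hI'⟩ ⟨hJ, hJ'⟩ h
      obtain ⟨e, he, heI, h1⟩ := aug (hG.subset hI) (hG.subset hJ) ((forest_iff hI).1 hI')
        ((forest_iff hJ).1 hJ') h
      have h2 : insert e I ⊆ E(G) := Set.insert_subset (hJ he) hI
      exact ⟨e, he, heI, h2, (forest_iff h2).2 h1⟩)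
    (fun I h => h.1)).matroid

theorem isCycleMatroid_cycleMatroid (G : Graph ℕ ℕ) (hG : E(G).Finite) :
    IsCycleMatroid (cycleMatroid G hG) G := by
  refine ⟨rfl, fun I hI => ?_⟩
  show I ⊆ E(G) ∧ Forest G I ↔ Forest G I
  exact ⟨fun h => h.2, fun h => ⟨hI, h⟩⟩

theorem IsCycleMatroid.unique {M M' : Matroid ℕ} {G : Graph ℕ ℕ} (h : IsCycleMatroid M G)
    (h' : IsCycleMatroid M' G) : M = M' := by
  refine Matroid.ext_indep (h.1.trans h'.1.symm) fun I hI => ?_
  rw [h.1] at hI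
  rw [h.2 I hI, h'.2 I hI]

theorem transfer {M : Matroid ℕ} {G G' : Graph ℕ ℕ} (h : IsCycleMatroid M G)
    (h' : IsCycleMatroid M G') : E(G) = E(G') ∧ ∀ I ⊆ E(G), (Forest G I ↔ Forest G' I) := by
  have h1 : E(G) = E(G') := h.1.symm.trans h'.1
  refine ⟨h1, fun I hI => ?_⟩
  rw [← h.2 I hI, ← h'.2 I (h1 ▸ hI)]

/-! ### Minors -/

/-- the data of a minor -/
structure MinorData (F G : Graph ℕ ℕ) (Z : Set ℕ) (φ : ℕ → ℕ) : Prop where
  cls : ∀ u ∈ V(G), ∀ v ∈ V(G), (φ u = φ v ↔ Joined G Z u v)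
  disj : Disjoint Z E(F)
  le : F ≤ G.map φ

namespace MinorData

variable {F G : Graph ℕ ℕ} {Z : Set ℕ} {φ : ℕ → ℕ} (D : MinorData F G Z φ)

include D

theorem gminor : GMinor F G := ⟨Z, φ, D.cls, D.disj, D.le⟩

theorem link {e x y : ℕ} (h : F.IsLink e x y) : ∃ u v, G.IsLink e u v ∧ φ u = x ∧ φ v = y := by
  obtain ⟨u, v, h1, h2, h3⟩ := D.le.2 h
  exact ⟨u, v, h1, h2, h3⟩

theorem sub : E(F) ⊆ E(G) := by
  intro e he
  obtain ⟨x, y, h⟩ := exists_isLink_of_mem_edgeSet he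
  obtain ⟨u, v, h, _⟩ := D.link h
  exact h.edge_mem

theorem link' {e u v : ℕ} (he : e ∈ E(F)) (h : G.IsLink e u v) : F.IsLink e (φ u) (φ v) := by
  obtain ⟨x, y, h1⟩ := exists_isLink_of_mem_edgeSet he
  obtain ⟨u', v', h2, rfl, rfl⟩ := D.link h1
  rcases h.eq_and_eq_or_eq_and_eq h2 with ⟨rfl, rfl⟩ | ⟨rfl, rfl⟩
  · exact h1
  · exact h1.symm

theorem map_bd {e : ℕ} (he : e ∈ E(F)) :
    Finsupp.lmapDomain (ZMod 2) (ZMod 2) φ (bd G e) = bd F e := by
  obtain ⟨u, v, h⟩ := exists_isLink_of_mem_edgeSet (D.sub he)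
  rw [bd_eq h, bd_eq (D.link' he h), map_add, Finsupp.lmapDomain_apply, Finsupp.lmapDomain_apply,
    Finsupp.mapDomain_single, Finsupp.mapDomain_single]

theorem map_bd_zero {e : ℕ} (he : e ∈ Z) :
    Finsupp.lmapDomain (ZMod 2) (ZMod 2) φ (bd G e) = 0 := by
  by_cases hE : e ∈ E(G)
  · obtain ⟨u, v, h⟩ := exists_isLink_of_mem_edgeSet hE
    rw [bd_eq h, map_add, Finsupp.lmapDomain_apply, Finsupp.lmapDomain_apply,
      Finsupp.mapDomain_single, Finsupp.mapDomain_single,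
      (D.cls u h.left_mem v h.right_mem).2 (Joined.one he h), two_single]
  · rw [bd_of_not hE, map_zero]

theorem forest_union {I Z' : Set ℕ} (hI : I ⊆ E(F)) (hZ' : Z' ⊆ Z) (hE : Z' ⊆ E(G))
    (h1 : Forest F I) (h2 : Forest G Z') : Forest G (I ∪ Z') := by
  classical
  rw [forest_iff (Set.union_subset (hI.trans D.sub) hE), linearIndepOn_iff']
  rw [forest_iff hI, linearIndepOn_iff'] at h1
  rw [forest_iff hE, linearIndepOn_iff'] at h2
  intro t g ht hs
  have hsplit : ∀ w : ℕ → (ℕ →₀ ZMod 2), ∑ i ∈ t, g i • w i =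
      ∑ i ∈ t.filter (· ∈ I), g i • w i + ∑ i ∈ t.filter (· ∉ I), g i • w i :=
    fun w => (Finset.sum_filter_add_sum_filter_not t (· ∈ I) _).symm
  have hZt : ∀ i ∈ t.filter (· ∉ I), i ∈ Z' := by
    intro i hi
    rw [Finset.mem_filter] at hi
    rcases ht hi.1 with h | h
    · exact absurd h hi.2
    · exact h
  have hIt : ∀ i ∈ t.filter (· ∈ I), g i = 0 := by
    refine h1 _ g (fun i hi => (Finset.mem_filter.1 hi).2) ?_
    have h3 := congrArg (Finsupp.lmapDomain (ZMod 2) (ZMod 2) φ) hs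
    rw [map_zero, map_sum] at h3
    have h4 : ∀ i, Finsupp.lmapDomain (ZMod 2) (ZMod 2) φ (g i • bd G i) =
        g i • (Finsupp.lmapDomain (ZMod 2) (ZMod 2) φ (bd G i)) := fun i => map_smul _ _ _
    rw [Finset.sum_congr rfl fun i _ => h4 i, hsplit] at h3
    rw [Finset.sum_congr rfl (g := fun i => g i • bd F i) fun i hi => by
      rw [D.map_bd (hI (Finset.mem_filter.1 hi).2)]] at h3
    rw [Finset.sum_eq_zero (s := t.filter (· ∉ I)) fun i hi => by
      rw [D.map_bd_zero (hZ' (hZt i hi)), smul_zero], add_zero] at h3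
    exact h3
  have hZt' : ∀ i ∈ t.filter (· ∉ I), g i = 0 := by
    refine h2 _ g (fun i hi => hZt i hi) ?_
    rw [hsplit, Finset.sum_eq_zero (s := t.filter (· ∈ I)) fun i hi => by
      rw [hIt i hi, zero_smul], zero_add] at hs
    exact hs
  intro i hi
  by_cases h : i ∈ I
  · exact hIt i (Finset.mem_filter.2 ⟨hi, h⟩)
  · exact hZt' i (Finset.mem_filter.2 ⟨hi, h⟩)

theorem lift {I : Set ℕ} (hI : I ⊆ E(F)) {p : ℕ} (hp : p ∈ V(G)) {y : ℕ}
    (h : Joined F I (φ p) y) : ∃ q ∈ V(G), φ q = y ∧ Joined G (I ∪ Z) p q := by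
  induction h with
  | refl => exact ⟨p, hp, rfl, ReflTransGen.refl⟩
  | tail _ hs ih =>
    obtain ⟨q, hq, rfl, hj⟩ := ih
    obtain ⟨e, he, hl⟩ := hs
    obtain ⟨u, v, h1, h2, h3⟩ := D.link hl
    refine ⟨v, h1.right_mem, h3, ?_⟩
    have h4 : Joined G (I ∪ Z) q u :=
      ((D.cls q hq u h1.left_mem).1 h2.symm).mono Set.subset_union_right
    exact (hj.trans h4).tail ⟨e, Or.inl he, h1⟩

theorem forest_of_union {I : Set ℕ} (hI : I ⊆ E(F)) (h : Forest G (I ∪ Z)) : Forest F I := by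
  intro e he x y hxy hj
  obtain ⟨u, v, h1, rfl, rfl⟩ := D.link hxy
  obtain ⟨q, hq, h2, h3⟩ := D.lift (Set.sdiff_subset.trans hI) h1.left_mem hj
  have h4 : Joined G Z q v := (D.cls q hq v h1.right_mem).1 h2
  have heZ : e ∉ Z := fun h => Set.disjoint_left.1 D.disj h (hI he)
  refine h e (Or.inl he) u v h1 ?_
  have h5 : (I \ {e}) ∪ Z ⊆ (I ∪ Z) \ {e} := by
    rintro z (hz | hz)
    · exact ⟨Or.inl hz.1, hz.2⟩
    · refine ⟨Or.inr hz, ?_⟩
      rintro rfl
      exact heZ hz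
  exact (h3.mono h5).trans (h4.mono (Set.subset_union_right.trans h5))

theorem isMinor {M N : Matroid ℕ} (hN : IsCycleMatroid N F) (hM : IsCycleMatroid M G)
    (hZ : Z ⊆ E(G)) (hZf : Forest G Z) : N ≤m M := by
  refine ⟨Z, E(G) \ E(F), ?_⟩
  have hg : (M.contract Z).E = E(G) \ Z := by rw [Matroid.contract_ground, hM.1]
  have hZi : M.Indep Z := (hM.2 Z hZ).2 hZf
  have hE : N.E = ((M.contract Z).delete (E(G) \ E(F))).E := by
    rw [Matroid.delete_ground, hg, hN.1]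
    ext e
    constructor
    · intro he
      exact ⟨⟨D.sub he, fun h => Set.disjoint_left.1 D.disj h he⟩, fun h => h.2 he⟩
    · rintro ⟨⟨h1, _⟩, h3⟩
      by_contra h4
      exact h3 ⟨h1, h4⟩
  refine Matroid.ext_indep hE fun I hI => ?_
  rw [hN.1] at hI
  rw [hN.2 I hI, Matroid.delete_indep_iff, hZi.contract_indep_iff]
  have h1 : Disjoint I Z := (D.disj.mono_right hI).symm
  have h2 : Disjoint I (E(G) \ E(F)) :=
    Set.disjoint_left.2 fun e he h => h.2 (hI he)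
  have h3 : I ∪ Z ⊆ E(G) := Set.union_subset (hI.trans D.sub) hZ
  rw [hM.2 _ h3]
  constructor
  · intro h
    exact ⟨⟨h1, D.forest_union hI subset_rfl hZ h hZf⟩, h2⟩
  · intro h
    exact D.forest_of_union hI h.1.2

end MinorData

theorem GMinor.data {F G : Graph ℕ ℕ} (h : GMinor F G) : ∃ Z φ, MinorData F G Z φ := by
  obtain ⟨Z, φ, h1, h2, h3⟩ := h
  exact ⟨Z, φ, h1, h2, h3⟩

/-- a circuit has boundary zero -/
theorem sum_zero {G : Graph ℕ ℕ} {C : Finset ℕ} (hC : (C : Set ℕ) ⊆ E(G))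
    (h1 : ¬ Forest G C) (h2 : ∀ e ∈ C, Forest G (C \ {e})) : ∑ e ∈ C, bd G e = 0 := by
  classical
  rw [forest_iff hC, linearIndepOn_iff'] at h1
  push Not at h1
  obtain ⟨t, g, ht, hs, i, hi, hgi⟩ := h1
  have hg : ∀ j, g j ≠ 0 → g j = 1 := by
    intro j hj
    have : ∀ x : ZMod 2, x ≠ 0 → x = 1 := by decide
    exact this _ hj
  have hs' : ∑ j ∈ t.filter (fun j => g j ≠ 0), bd G j = 0 := by
    rw [← hs]
    rw [← Finset.sum_filter_add_sum_filter_not t (fun j => g j ≠ 0) (fun j => g j • bd G j)]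
    rw [Finset.sum_eq_zero (s := t.filter (fun j => ¬ g j ≠ 0)), add_zero]
    · refine Finset.sum_congr rfl fun j hj => ?_
      rw [hg j (Finset.mem_filter.1 hj).2, one_smul]
    · intro j hj
      have := (Finset.mem_filter.1 hj).2
      rw [not_not] at this
      rw [this, zero_smul]
  have hsub : t.filter (fun j => g j ≠ 0) ⊆ C := by
    intro j hj
    exact ht (Finset.mem_filter.1 hj).1
  by_cases heq : t.filter (fun j => g j ≠ 0) = C
  · rw [heq] at hs'
    exact hs'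
  · exfalso
    obtain ⟨e, he, he'⟩ := Finset.exists_of_ssubset (lt_of_le_of_ne hsub heq)
    have h3 := h2 e he
    rw [forest_iff (Set.sdiff_subset.trans hC), linearIndepOn_iff'] at h3
    have h4 := h3 (t.filter (fun j => g j ≠ 0)) (fun _ => 1) ?_ ?_ i
      (Finset.mem_filter.2 ⟨hi, hgi⟩)
    · exact one_ne_zero h4
    · intro j hj
      refine ⟨hsub hj, ?_⟩
      rintro rfl
      exact he' hj
    · simpa using hs'

/-- the value of a boundary -/
theorem bd_apply {G : Graph ℕ ℕ} {e x y : ℕ} (h : G.IsLink e x y) (hxy : x ≠ y) (z : ℕ) :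
    bd G e z = if z = x ∨ z = y then 1 else 0 := by
  rw [bd_eq h, Finsupp.add_apply, Finsupp.single_apply, Finsupp.single_apply]
  split_ifs <;> first | rfl | (exfalso; omega)

/-- sets of vertices separate -/
theorem not_joined_of_cut {G : Graph ℕ ℕ} {Z : Set ℕ} {x y : ℕ} (S : Set ℕ)
    (hS : ∀ z ∈ Z, ∀ a b, G.IsLink z a b → a ∈ S → b ∈ S) (hx : x ∈ S) (hy : y ∉ S) :
    ¬ Joined G Z x y := by
  intro h
  apply hy
  clear hy
  induction h with
  | refl => exact hx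
  | tail _ hs ih =>
    obtain ⟨e, he, hl⟩ := hs
    exact hS e he _ _ hl ih

theorem forest_of_cuts {G : Graph ℕ ℕ} {I : Set ℕ}
    (h : ∀ e ∈ I, ∃ x y, G.IsLink e x y ∧ ∃ S : Set ℕ, x ∈ S ∧ y ∉ S ∧
      ∀ z ∈ I, z ≠ e → ∀ a b, G.IsLink z a b → a ∈ S → b ∈ S) : Forest G I := by
  intro e he x y hxy hj
  obtain ⟨x', y', h1, S, h2, h3, h4⟩ := h e he
  have h5 : ¬ Joined G (I \ {e}) x' y' :=
    not_joined_of_cut S (fun z hz => h4 z hz.1 hz.2) h2 h3
  rcases hxy.eq_and_eq_or_eq_and_eq h1 with ⟨rfl, rfl⟩ | ⟨rfl, rfl⟩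
  · exact h5 hj
  · exact h5 hj.symm

end Pool.Agent.R550.TM
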