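import Pool.Agent.R550.TM.Final

/-!
# The four matroids are connected
-/

set_option autoImplicit false

namespace Pool.Agent.R550.TM

open Relation Graph

/-- `C` is a circuit -/
def Circ (G : Graph ℕ ℕ) (C : Set ℕ) : Prop :=
  C ⊆ E(G) ∧ ¬ Forest G C ∧ ∀ g ∈ C, Forest G (C \ {g})

/-- `e` and `f` are in a common circuit -/
def Rel (G : Graph ℕ ℕ) (e f : ℕ) : Prop := ∃ C, Circ G C ∧ e ∈ C ∧ f ∈ C

theorem connected_of {M : Matroid ℕ} {G : Graph ℕ ℕ} (hM : IsCycleMatroid M G) (e0 : ℕ)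
    (h : ∀ e ∈ E(G), ReflTransGen (Rel G) e e0) : Connected M := by
  intro A hA hne hneq
  by_contra hc
  push Not at hc
  rw [hM.1] at hA hneq hc
  have key : ∀ C, Circ G C → ∀ e ∈ C, e ∈ A → C ⊆ A := by
    rintro C ⟨h1, h2, h3⟩ e he heA f hf
    by_contra hfA
    have h4 : Forest G (C ∩ A) := (h3 f hf).mono fun g hg => ⟨hg.1, by
      rintro rfl
      exact hfA hg.2⟩
    have h5 : Forest G (C \ A) := (h3 e he).mono fun g hg => ⟨hg.1, by
      rintro rfl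
      exact hg.2 heA⟩
    have h6 := hc (C ∩ A) (C \ A) Set.inter_subset_right
      (fun g hg => ⟨h1 hg.1, hg.2⟩) ((hM.2 _ (Set.inter_subset_left.trans h1)).2 h4)
      ((hM.2 _ (Set.sdiff_subset.trans h1)).2 h5)
    rw [Set.inter_union_sdiff, hM.2 _ h1] at h6
    exact h2 h6
  have key2 : ∀ e, ReflTransGen (Rel G) e e0 → (e ∈ A ↔ e0 ∈ A) := by
    intro e he
    induction he using ReflTransGen.head_induction_on with
    | refl => exact Iff.rfl
    | head hs _ ih =>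
      obtain ⟨C, hC, h1, h2⟩ := hs
      rw [← ih]
      exact ⟨fun h => key C hC _ h1 h h2, fun h => key C hC _ h2 h h1⟩
  obtain ⟨a, ha⟩ := hne
  have h1 : e0 ∈ A := (key2 a (h a (hA ha))).1 ha
  exact hneq (hA.antisymm fun e he => (key2 e (h e he)).2 h1)

theorem circ3 {G : Graph ℕ ℕ} {e1 e2 e3 a b c : ℕ} (l1 : G.IsLink e1 a b) (l2 : G.IsLink e2 a c)
    (l3 : G.IsLink e3 b c) (hab : a ≠ b) (hac : a ≠ c) (hbc : b ≠ c) (n12 : e1 ≠ e2)
    (n13 : e1 ≠ e3) (n23 : e2 ≠ e3) : Circ G {e1, e2, e3} := by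
  refine ⟨?_, not_forest_triangle l1 l2 l3 n13 n23, ?_⟩
  · rintro e (rfl | rfl | rfl)
    · exact l1.edge_mem
    · exact l2.edge_mem
    · exact l3.edge_mem
  · rintro e (rfl | rfl | rfl)
    · refine (path2 l2.symm l3.symm hac.symm hbc.symm hab).mono ?_
      rintro z ⟨rfl | rfl | rfl, hz⟩ <;> simp_all
    · refine (path2 l1.symm l3 hab.symm hbc hac).mono ?_
      rintro z ⟨rfl | rfl | rfl, hz⟩ <;> simp_all
    · refine (path2 l1 l2 hab hac hbc).mono ?_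
      rintro z ⟨rfl | rfl | rfl, hz⟩ <;> simp_all

theorem circ4 {G : Graph ℕ ℕ} {e1 e2 e3 e4 a b c d : ℕ} (l1 : G.IsLink e1 a b)
    (l2 : G.IsLink e2 b c) (l3 : G.IsLink e3 c d) (l4 : G.IsLink e4 d a)
    (hab : a ≠ b) (hac : a ≠ c) (had : a ≠ d) (hbc : b ≠ c) (hbd : b ≠ d) (hcd : c ≠ d)
    (n14 : e1 ≠ e4) (n24 : e2 ≠ e4) (n34 : e3 ≠ e4) : Circ G {e1, e2, e3, e4} := by
  refine ⟨?_, ?_, ?_⟩
  · rintro e (rfl | rfl | rfl | rfl)
    · exact l1.edge_mem
    · exact l2.edge_mem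
    · exact l3.edge_mem
    · exact l4.edge_mem
  · intro h
    refine h e4 (by simp) d a l4 ?_
    have m1 : e1 ∈ ({e1, e2, e3, e4} : Set ℕ) \ {e4} := ⟨by simp, n14⟩
    have m2 : e2 ∈ ({e1, e2, e3, e4} : Set ℕ) \ {e4} := ⟨by simp, n24⟩
    have m3 : e3 ∈ ({e1, e2, e3, e4} : Set ℕ) \ {e4} := ⟨by simp, n34⟩
    exact (Joined.one m3 l3.symm).trans ((Joined.one m2 l2.symm).trans (Joined.one m1 l1.symm))
  · rintro e (rfl | rfl | rfl | rfl)
    · refine (path3 l2 l3 l4 hbc hbd hab.symm hcd hac.symm had.symm).mono ?_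
      intro z hz
      simp only [Set.mem_sdiff, Set.mem_insert_iff, Set.mem_singleton_iff] at hz ⊢
      tauto
    · refine (path3 l3 l4 l1 hcd hac.symm hbc.symm had.symm hbd.symm hab).mono ?_
      intro z hz
      simp only [Set.mem_sdiff, Set.mem_insert_iff, Set.mem_singleton_iff] at hz ⊢
      tauto
    · refine (path3 l4 l1 l2 had.symm hbd.symm hcd.symm hab hac hbc).mono ?_
      intro z hz
      simp only [Set.mem_sdiff, Set.mem_insert_iff, Set.mem_singleton_iff] at hz ⊢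
      tauto
    · refine (path3 l1 l2 l3 hab hac had hbc hbd hcd).mono ?_
      intro z hz
      simp only [Set.mem_sdiff, Set.mem_insert_iff, Set.mem_singleton_iff] at hz ⊢
      tauto

/-- triangles in graphs whose labels are the pairs -/
theorem tri_id {P : List (ℕ × ℕ)} (hP : ∀ p ∈ P, p.1 < p.2) {u v w : ℕ} (h1 : (u, v) ∈ P)
    (h2 : (u, w) ∈ P) (h3 : (v, w) ∈ P) : Circ (Gr P id) {lab u v, lab u w, lab v w} := by
  have k1 : u < v := hP _ h1
  have k2 : u < w := hP _ h2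
  have k3 : v < w := hP _ h3
  have ni : ∀ {u v u' v' : ℕ}, u < v → u' < v' → ¬ (u = u' ∧ v = v') → lab u v ≠ lab u' v' :=
    fun h1 h2 h3 h4 => h3 (lab_inj h1 h2 h4)
  exact circ3 (link_of_mem (π := id) hP h1) (link_of_mem (π := id) hP h2)
    (link_of_mem (π := id) hP h3) (by simp only [id]; omega) (by simp only [id]; omega)
    (by simp only [id]; omega) (ni (by omega) (by omega) (by omega))
    (ni (by omega) (by omega) (by omega)) (ni (by omega) (by omega) (by omega))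

theorem connected_K {N : ℕ} (hN : 3 ≤ N) {M : Matroid ℕ} (hM : IsCycleMatroid M (K N)) :
    Connected M := by
  have h01 : ∀ v, 0 < v → v < N → ReflTransGen (Rel (K N)) (lab 0 v) (lab 0 1) := by
    intro v h0 hv
    by_cases h1 : v = 1
    · rw [h1]
    · refine ReflTransGen.single ⟨_, tri_id (u := 0) (v := 1) (w := v) PK_lt
        (mem_PK.2 ⟨by omega, by omega⟩) (mem_PK.2 ⟨h0, hv⟩) (mem_PK.2 ⟨by omega, hv⟩), ?_, ?_⟩
      · simp
      · simp
  refine connected_of hM (lab 0 1) ?_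
  intro e he
  obtain ⟨u, v, h1, rfl⟩ := (mem_E PK_lt).1 he
  have h2 := mem_PK.1 h1
  rcases Nat.eq_zero_or_pos u with rfl | hu
  · exact h01 v h2.1 h2.2
  · refine ReflTransGen.head (b := lab 0 u) ⟨_, tri_id (u := 0) (v := u) (w := v) PK_lt
      (mem_PK.2 ⟨hu, by omega⟩) (mem_PK.2 ⟨by omega, h2.2⟩) h1, by simp, by simp⟩
      (h01 u hu (by omega))

section

variable {n m : ℕ} {L : ℕ → List ℕ} (H : Hyp n m L)

include H

theorem connected_G {M : Matroid ℕ} (hM : IsCycleMatroid M (Gr (PG n m L) id)) :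
    Connected M := by
  have p01 : (0, 1) ∈ PG n m L := mem_PG.2 (Or.inl ⟨rfl, rfl⟩)
  have p02 : (0, 2) ∈ PG n m L := mem_PG.2 (Or.inr (Or.inl ⟨rfl, rfl⟩))
  have p12 : (1, 2) ∈ PG n m L := mem_PG.2 (Or.inr (Or.inr (Or.inl ⟨rfl, rfl⟩)))
  have pl : ∀ l < 2 * n, ∀ i, i = 0 ∨ i = 1 → (i, 3 + l) ∈ PG n m L := fun l hl i hi =>
    mem_PG.2 (Or.inr (Or.inr (Or.inr (Or.inl ⟨l, hl, hi, rfl⟩))))
  have pc : ∀ e < m, ∀ u v, ((u = 1 ∧ v = 3 + 2 * n + 3 * e) ∨
      (u = 0 ∧ v = 3 + 2 * n + 3 * e + 1) ∨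
      (u = 0 ∧ v = 3 + 2 * n + 3 * e + 2) ∨ (u = 1 ∧ v = 3 + 2 * n + 3 * e + 2) ∨
      (u = 3 + 2 * n + 3 * e ∧ v = 3 + 2 * n + 3 * e + 1) ∨
      (u = 3 + 2 * n + 3 * e + 1 ∧ v = 3 + 2 * n + 3 * e + 2) ∨
      (u ∈ L e ∧ v = 3 + 2 * n + 3 * e)) → (u, v) ∈ PG n m L := fun e he u v h =>
    mem_PG.2 (Or.inr (Or.inr (Or.inr (Or.inr (Or.inr ⟨e, he, h⟩)))))
  have a2 : ∀ i, i = 0 ∨ i = 1 → Rel (Gr (PG n m L) id) (lab i 2) (lab 0 1) := by
    rintro i (rfl | rfl)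
    · exact ⟨_, tri_id (PG_lt H) p01 p02 p12, by simp, by simp⟩
    · exact ⟨_, tri_id (PG_lt H) p01 p02 p12, by simp, by simp⟩
  have al : ∀ l < 2 * n, ∀ i, i = 0 ∨ i = 1 →
      Rel (Gr (PG n m L) id) (lab i (3 + l)) (lab 0 1) := by
    rintro l hl i (rfl | rfl)
    · exact ⟨_, tri_id (PG_lt H) p01 (pl l hl 0 (Or.inl rfl)) (pl l hl 1 (Or.inr rfl)),
        by simp, by simp⟩
    · exact ⟨_, tri_id (PG_lt H) p01 (pl l hl 0 (Or.inl rfl)) (pl l hl 1 (Or.inr rfl)),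
        by simp, by simp⟩
  have quad : ∀ e < m, Circ (Gr (PG n m L) id) {lab 1 (3 + 2 * n + 3 * e),
      lab (3 + 2 * n + 3 * e) (3 + 2 * n + 3 * e + 1), lab 0 (3 + 2 * n + 3 * e + 1),
      lab 0 1} := by
    intro e he
    have ni : ∀ {u v u' v' : ℕ}, u < v → u' < v' → ¬ (u = u' ∧ v = v') → lab u v ≠ lab u' v' :=
      fun h1 h2 h3 h4 => h3 (lab_inj h1 h2 h4)
    have l1 := link_of_mem (π := id) (PG_lt H) (pc e he _ _ (Or.inl ⟨rfl, rfl⟩))
    have l2 := link_of_mem (π := id) (PG_lt H) (pc e he _ _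
      (Or.inr (Or.inr (Or.inr (Or.inr (Or.inl ⟨rfl, rfl⟩))))))
    have l3 := link_of_mem (π := id) (PG_lt H) (pc e he _ _ (Or.inr (Or.inl ⟨rfl, rfl⟩)))
    have l4 := link_of_mem (π := id) (PG_lt H) p01
    simp only [id] at l1 l2 l3 l4
    exact circ4 l1 l2 l3.symm l4 (by omega) (by omega) (by omega) (by omega) (by omega)
      (by omega) (ni (by omega) (by omega) (by omega)) (ni (by omega) (by omega) (by omega))
      (ni (by omega) (by omega) (by omega))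
  have tG : ∀ e < m, Circ (Gr (PG n m L) id) {lab 0 1, lab 0 (3 + 2 * n + 3 * e + 2),
      lab 1 (3 + 2 * n + 3 * e + 2)} := fun e he => tri_id (PG_lt H) p01
    (pc e he _ _ (Or.inr (Or.inr (Or.inl ⟨rfl, rfl⟩))))
    (pc e he _ _ (Or.inr (Or.inr (Or.inr (Or.inl ⟨rfl, rfl⟩)))))
  refine connected_of hM (lab 0 1) ?_
  intro z hz
  obtain ⟨u, v, h1, rfl⟩ := (mem_E (PG_lt H)).1 hz
  rcases mem_PG.1 h1 with ⟨rfl, rfl⟩ | ⟨rfl, rfl⟩ | ⟨rfl, rfl⟩ | ⟨l, hl, hu, rfl⟩ |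
    ⟨a, ha, rfl, rfl⟩ | ⟨e, he, h⟩
  · exact ReflTransGen.refl
  · exact ReflTransGen.single (a2 0 (Or.inl rfl))
  · exact ReflTransGen.single (a2 1 (Or.inr rfl))
  · exact ReflTransGen.single (al l hl u hu)
  · have p1 : (0, 3 + 2 * a) ∈ PG n m L := pl (2 * a) (by omega) 0 (Or.inl rfl)
    have p2 : (0, 4 + 2 * a) ∈ PG n m L := by
      have := pl (2 * a + 1) (by omega) 0 (Or.inl rfl)
      rwa [show 3 + (2 * a + 1) = 4 + 2 * a by omega] at this
    refine ReflTransGen.head (b := lab 0 (3 + 2 * a)) ⟨_, tri_id (PG_lt H) p1 p2 h1,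
      by simp, by simp⟩ (ReflTransGen.single (al (2 * a) (by omega) 0 (Or.inl rfl)))
  · rcases h with ⟨rfl, rfl⟩ | ⟨rfl, rfl⟩ | ⟨rfl, rfl⟩ | ⟨rfl, rfl⟩ | ⟨rfl, rfl⟩ |
      ⟨rfl, rfl⟩ | ⟨h2, rfl⟩
    · exact ReflTransGen.single ⟨_, quad e he, by simp, by simp⟩
    · exact ReflTransGen.single ⟨_, quad e he, by simp, by simp⟩
    · exact ReflTransGen.single ⟨_, tG e he, by simp, by simp⟩
    · exact ReflTransGen.single ⟨_, tG e he, by simp, by simp⟩
    · exact ReflTransGen.single ⟨_, quad e he, by simp, by simp⟩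
    · refine ReflTransGen.head (b := lab 0 (3 + 2 * n + 3 * e + 1)) ⟨_, tri_id (PG_lt H)
        (pc e he _ _ (Or.inr (Or.inl ⟨rfl, rfl⟩)))
        (pc e he _ _ (Or.inr (Or.inr (Or.inl ⟨rfl, rfl⟩)))) h1, by simp, by simp⟩
        (ReflTransGen.single ⟨_, quad e he, by simp, by simp⟩)
    · have h3 := H.lt e he u h2
      obtain ⟨l, hl, rfl⟩ : ∃ l < 2 * n, u = 3 + l := ⟨u - 3, by omega, by omega⟩
      refine ReflTransGen.head (b := lab 1 (3 + l)) ⟨_, tri_id (PG_lt H)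
        (pl l hl 1 (Or.inr rfl)) (pc e he _ _ (Or.inl ⟨rfl, rfl⟩)) h1, by simp, by simp⟩
        (ReflTransGen.single (al l hl 1 (Or.inr rfl)))

omit H in
theorem rel_E (hm : 1 ≤ m) {P : List (ℕ × ℕ)} (hP : ∀ p ∈ P, p.1 < p.2) (hs : ∀ p ∈ PE n m, p ∈ P) {u v : ℕ}
    (h : (u, v) ∈ PE n m) :
    ReflTransGen (Rel (Gr P (cl n s0 true))) (lab u v) (lab 0 2) := by
  have ni : ∀ {u v u' v' : ℕ}, u < v → u' < v' → ¬ (u = u' ∧ v = v') → lab u v ≠ lab u' v' :=
    fun h1 h2 h3 h4 => h3 (lab_inj h1 h2 h4)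
  have p02 : (0, 2) ∈ PE n m := mem_PE.2 (Or.inl ⟨rfl, rfl⟩)
  have p12 : (1, 2) ∈ PE n m := mem_PE.2 (Or.inr (Or.inl ⟨rfl, rfl⟩))
  have l02 : (Gr P (cl n s0 true)).IsLink (lab 0 2) 0 2 := link_of_mem hP (hs _ p02)
  have l12 : (Gr P (cl n s0 true)).IsLink (lab 1 2) 1 2 := link_of_mem hP (hs _ p12)
  have quad : ∀ e < m, Circ (Gr P (cl n s0 true)) {lab 1 2,
      lab (3 + 2 * n + 3 * e + 1) (3 + 2 * n + 3 * e + 2),
      lab (3 + 2 * n + 3 * e) (3 + 2 * n + 3 * e + 1), lab 0 2} := by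
    intro e he
    have pf : (3 + 2 * n + 3 * e, 3 + 2 * n + 3 * e + 1) ∈ PE n m :=
      mem_PE.2 (Or.inr (Or.inr (Or.inr ⟨e, he, Or.inl ⟨rfl, rfl⟩⟩)))
    have pg : (3 + 2 * n + 3 * e + 1, 3 + 2 * n + 3 * e + 2) ∈ PE n m :=
      mem_PE.2 (Or.inr (Or.inr (Or.inr ⟨e, he, Or.inr ⟨rfl, rfl⟩⟩)))
    have lf := link_of_mem (π := cl n s0 true) hP (hs _ pf)
    have lg := link_of_mem (π := cl n s0 true) hP (hs _ pg)
    rw [cl_C, cl_D, if_pos rfl] at lf
    rw [cl_D, cl_G, if_pos rfl] at lg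
    exact circ4 l12.symm lg.symm lf.symm l02 (by omega) (by omega) (by omega) (by omega)
      (by omega) (by omega) (ni (by omega) (by omega) (by omega))
      (ni (by omega) (by omega) (by omega)) (ni (by omega) (by omega) (by omega))
  rcases mem_PE.1 h with ⟨rfl, rfl⟩ | ⟨rfl, rfl⟩ | ⟨a, ha, rfl, rfl⟩ |
    ⟨e, he, ⟨rfl, rfl⟩ | ⟨rfl, rfl⟩⟩
  · exact ReflTransGen.refl
  · exact ReflTransGen.single ⟨_, quad 0 hm, by simp, by simp⟩
  · have la := link_of_mem (π := cl n s0 true) hP (hs _ h)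
    have e1 : cl n s0 true (3 + 2 * a) = 0 := by
      rw [cl_lit (by omega) (by omega), if_neg]
      unfold s0
      omega
    have e2 : cl n s0 true (4 + 2 * a) = 1 := by
      rw [cl_lit (by omega) (by omega), if_pos]
      unfold s0
      omega
    rw [e1, e2] at la
    exact ReflTransGen.single ⟨_, circ3 la l02 l12 (by omega) (by omega) (by omega)
      (ni (by omega) (by omega) (by omega)) (ni (by omega) (by omega) (by omega))
      (ni (by omega) (by omega) (by omega)), by simp, by simp⟩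
  · exact ReflTransGen.single ⟨_, quad e he, by simp, by simp⟩
  · exact ReflTransGen.single ⟨_, quad e he, by simp, by simp⟩

theorem connected_E {M : Matroid ℕ} (hM : IsCycleMatroid M (Gr (PE n m) (cl n s0 true))) :
    Connected M := by
  refine connected_of hM (lab 0 2) fun z hz => ?_
  obtain ⟨u, v, h1, rfl⟩ := (mem_E PE_lt).1 hz
  exact rel_E H.m1 PE_lt (fun _ h => h) h1

theorem connected_F {M : Matroid ℕ} (hM : IsCycleMatroid M (Gr (PF n m) (cl n s0 true))) :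
    Connected M := by
  have ni : ∀ {u v u' v' : ℕ}, u < v → u' < v' → ¬ (u = u' ∧ v = v') → lab u v ≠ lab u' v' :=
    fun h1 h2 h3 h4 => h3 (lab_inj h1 h2 h4)
  refine connected_of hM (lab 0 2) fun z hz => ?_
  obtain ⟨u, v, h1, rfl⟩ := (mem_E PF_lt).1 hz
  rcases mem_PF.1 h1 with h2 | ⟨e, he, rfl, rfl⟩
  · exact rel_E H.m1 PF_lt PE_sub' h2
  · have p02 : (0, 2) ∈ PE n m := mem_PE.2 (Or.inl ⟨rfl, rfl⟩)
    have pf : (3 + 2 * n + 3 * e, 3 + 2 * n + 3 * e + 1) ∈ PE n m :=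
      mem_PE.2 (Or.inr (Or.inr (Or.inr ⟨e, he, Or.inl ⟨rfl, rfl⟩⟩)))
    have k02 : (Gr (PF n m) (cl n s0 true)).IsLink (lab 0 2) 0 2 :=
      link_of_mem PF_lt (PE_sub' _ p02)
    have kf := link_of_mem (π := cl n s0 true) PF_lt (PE_sub' _ pf)
    rw [cl_C, cl_D, if_pos rfl] at kf
    have kx := link_of_mem (π := cl n s0 true) PF_lt h1
    rw [cl_D, cl_lt3 (by omega)] at kx
    exact ReflTransGen.single ⟨_, circ3 k02 kf kx (by omega) (by omega) (by omega)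
      (ni (by omega) (by omega) (by omega)) (ni (by omega) (by omega) (by omega))
      (ni (by omega) (by omega) (by omega)), by simp, by simp⟩

theorem connected : ∀ M ∈ (inst n m L).map cm, Connected M := by
  unfold inst
  simp only [List.map_cons, List.map_nil]
  intro M hM
  simp only [List.mem_cons, List.not_mem_nil, or_false] at hM
  rcases hM with rfl | rfl | rfl | rfl
  · exact connected_K (by unfold NN; omega) (cm_spec _)
  · exact connected_G H (cm_spec _)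
  · exact connected_E H (cm_spec _)
  · exact connected_F H (cm_spec _)

end

open Pool.Agent.NPC in
/-- Simultaneous graphicness is NP-hard for temporal sequences of four connected matroids. -/
theorem hard : HardPr (fun x : List (List (ℕ × ℕ × ℕ)) => x.length = 4 ∧ Temporal (x.map cm) ∧
    ∀ M ∈ x.map cm, Connected M) (fun x => SimGraphic (x.map cm)) := by
  refine hardPr_SAT3b.trans poly_redF (fun φ hφ => ?_) (fun φ hφ => ?_)
  · have H := hyp φ hφ.2.2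
    exact ⟨rfl, temporal H, connected H⟩
  · rw [OC.sat_iff]
    exact correct' (hyp φ hφ.2.2)

end Pool.Agent.R550.TM
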