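import Mathlib

/-!
# Temporal sequences of matroids

Graphs are Mathlib's multigraphs `Graph ℕ ℕ` (vertices and edge labels are natural numbers), and
matroids are Mathlib's matroids on subsets of `ℕ`.
-/

set_option autoImplicit false

namespace Pool.Agent.R550.TM

open Relation Graph

/-- The vertices `x` and `y` are joined in `G` by a walk all of whose edges are in `Z`. -/
def Joined (G : Graph ℕ ℕ) (Z : Set ℕ) : ℕ → ℕ → Prop :=
  ReflTransGen fun a b => ∃ e ∈ Z, G.IsLink e a b

/-- The set `I` of edges contains no cycle of `G`: no edge of `I` has ends which are joined by the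
other edges of `I`. -/
def Forest (G : Graph ℕ ℕ) (I : Set ℕ) : Prop :=
  ∀ e ∈ I, ∀ x y, G.IsLink e x y → ¬ Joined G (I \ {e}) x y

/-- `M` is the cycle matroid of `G`. -/
def IsCycleMatroid (M : Matroid ℕ) (G : Graph ℕ ℕ) : Prop :=
  M.E = E(G) ∧ ∀ I ⊆ E(G), (M.Indep I ↔ Forest G I)

/-- `F` is a minor of `G`: for some set `Z` of edges, not containing edges of `F`, it arises from
`G` by contracting the edges of `Z` (two vertices `u` and `v` of `G` become the same vertex
`φ u = φ v` iff they are joined by edges in `Z`; `G.map φ` is the graph obtained from `G` by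
renaming each vertex `v` into `φ v`) and deleting edges and vertices (`≤` is the subgraph
relation). -/
def GMinor (F G : Graph ℕ ℕ) : Prop :=
  ∃ (Z : Set ℕ) (φ : ℕ → ℕ), (∀ u ∈ V(G), ∀ v ∈ V(G), (φ u = φ v ↔ Joined G Z u v)) ∧
    Disjoint Z E(F) ∧ F ≤ G.map φ

/-- A temporal sequence of matroids: of any two consecutive matroids one is a minor of the
other. -/
def Temporal (M : List (Matroid ℕ)) : Prop := M.IsChain fun A B => A ≤m B ∨ B ≤m A

/-- The sequence `M` of matroids is simultaneously graphic: they are the cycle matroids of finite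
graphs such that whenever a matroid is a minor of the preceding or the following one, then its
graph is a minor of the graph of the latter. -/
def SimGraphic (M : List (Matroid ℕ)) : Prop :=
  ∃ G : List (Graph ℕ ℕ),
    List.Forall₂ (fun A B => V(B).Finite ∧ E(B).Finite ∧ IsCycleMatroid A B) M G ∧
    (M.zip G).IsChain fun a b =>
      (a.1 ≤m b.1 → GMinor a.2 b.2) ∧ (b.1 ≤m a.1 → GMinor b.2 a.2)

/-- `M` is connected: it is not the direct sum of its restrictions to `A` and to the complement of
`A`, for any set `A` of elements which is neither empty nor the whole ground set. -/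
def Connected (M : Matroid ℕ) : Prop :=
  ∀ A ⊆ M.E, A.Nonempty → A ≠ M.E →
    ∃ I J, I ⊆ A ∧ J ⊆ M.E \ A ∧ M.Indep I ∧ M.Indep J ∧ ¬ M.Indep (I ∪ J)

/-- The graph given by a list of triples `(e, x, y)`: `e` is an edge with the ends `x` and `y`. (If
the label `e` occurs more than once, its first occurrence counts.) -/
def toGraph (H : List (ℕ × ℕ × ℕ)) : Graph ℕ ℕ where
  vertexSet := {x | ∃ e y, H.lookup e = some (x, y) ∨ H.lookup e = some (y, x)}
  IsLink e x y := H.lookup e = some (x, y) ∨ H.lookup e = some (y, x)
  edgeSet := {e | ∃ x y, H.lookup e = some (x, y) ∨ H.lookup e = some (y, x)}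
  isLink_symm := fun _ _ => ⟨fun _ _ h => h.symm⟩
  eq_or_eq_of_isLink_of_isLink := by
    intro e x y v w h1 h2
    rcases h1 with h1 | h1 <;> rcases h2 with h2 | h2 <;> rw [h1] at h2 <;>
      simp only [Option.some.injEq, Prod.mk.injEq] at h2
    · exact Or.inl h2.1
    · exact Or.inr h2.1
    · exact Or.inr h2.2
    · exact Or.inl h2.2
  left_mem_of_isLink := fun e _ y h => ⟨e, y, h⟩

end Pool.Agent.R550.TM
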