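import Pool.Agent.R550.TM.Sound
import Pool.Agent.R550.OC.Final
import Pool.Agent.NPC.Sat2

/-!
# Simultaneous graphicness is NP-hard
-/

set_option autoImplicit false

namespace Pool.Agent.R550.TM

open Relation Graph Pool.Agent.NPC Pool.Agent.R550.PS Pool.Agent.R550.LC

theorem finite_toGraph (H : List (ℕ × ℕ × ℕ)) : E(toGraph H).Finite ∧ V(toGraph H).Finite := by
  have key : ∀ (e : ℕ) (p : ℕ × ℕ), H.lookup e = some p → (e, p) ∈ H := by
    intro e p h
    induction H with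
    | nil => simp at h
    | cons q H ih =>
      obtain ⟨a, r⟩ := q
      rw [List.lookup_cons] at h
      by_cases hb : (e == a) = true
      · rw [hb] at h
        simp only [Option.some.injEq] at h
        have : e = a := by simpa using hb
        rw [this, h]
        exact List.mem_cons_self ..
      · have hb' : (e == a) = false := by simpa using hb
        rw [hb'] at h
        exact List.mem_cons_of_mem _ (ih h)
  constructor
  · refine (H.map Prod.fst).finite_toSet.subset ?_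
    rintro e ⟨x, y, h | h⟩
    · exact List.mem_map.2 ⟨_, key _ _ h, rfl⟩
    · exact List.mem_map.2 ⟨_, key _ _ h, rfl⟩
  · refine (H.flatMap fun p => [p.2.1, p.2.2]).finite_toSet.subset ?_
    rintro x ⟨e, y, h | h⟩
    · exact List.mem_flatMap.2 ⟨_, key _ _ h, by simp⟩
    · exact List.mem_flatMap.2 ⟨_, key _ _ h, by simp⟩

/-- The cycle matroid of the graph given by a list of triples. -/
noncomputable def cm (H : List (ℕ × ℕ × ℕ)) : Matroid ℕ :=
  cycleMatroid (toGraph H) (finite_toGraph H).1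

theorem cm_spec (H : List (ℕ × ℕ × ℕ)) : IsCycleMatroid (cm H) (toGraph H) :=
  isCycleMatroid_cycleMatroid _ _

/-- the four graphs -/
def inst (n m : ℕ) (L : ℕ → List ℕ) : List (List (ℕ × ℕ × ℕ)) :=
  [gr (PK (NN n m)) id, gr (PG n m L) id, gr (PE n m) (cl n s0 true), gr (PF n m) (cl n s0 true)]

section

variable {n m : ℕ} {L : ℕ → List ℕ} (H : Hyp n m L)

theorem minor_of_subset {P P' : List (ℕ × ℕ)} {π : ℕ → ℕ} (hP' : ∀ p ∈ P', p.1 < p.2)
    (hs : ∀ p ∈ P, p ∈ P') : cm (gr P π) ≤m cm (gr P' π) :=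
  (data_of_subset hP' hs).isMinor (cm_spec _) (cm_spec _) (Set.empty_subset _)
    fun e he => absurd he (Set.notMem_empty e)

include H

theorem m21 : cm (gr (PG n m L) id) ≤m cm (gr (PK (NN n m)) id) :=
  minor_of_subset PK_lt (PG_sub H)

omit H in
theorem m34 : cm (gr (PE n m) (cl n s0 true)) ≤m cm (gr (PF n m) (cl n s0 true)) :=
  minor_of_subset PF_lt PE_sub'

theorem m32 : cm (gr (PE n m) (cl n s0 true)) ≤m cm (gr (PG n m L) id) :=
  (contr H (ok0 n m L)).isMinor (swap (cm_spec _)) (cm_spec _) (Z_sub H) (forest_Z H)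

theorem n12 : ¬ cm (gr (PK (NN n m)) id) ≤m cm (gr (PG n m L) id) := by
  intro h
  have h1 := h.subset
  rw [(cm_spec _).1, (cm_spec _).1] at h1
  have h2 : lab 2 3 ∈ E(Gr (PK (NN n m)) id) :=
    (lab_mem_E PK_lt (by omega)).2 (mem_PK.2 ⟨by omega, by have := H.n1; unfold NN; omega⟩)
  exact not1 H ((lab_mem_E (PG_lt H) (by omega)).1 (h1 h2))

theorem n23 : ¬ cm (gr (PG n m L) id) ≤m cm (gr (PE n m) (cl n s0 true)) := by
  intro h
  have h1 := h.subset
  rw [(cm_spec _).1, (cm_spec _).1] at h1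
  have h2 : lab 0 1 ∈ E(Gr (PG n m L) id) :=
    (lab_mem_E (PG_lt H) (by omega)).2 (mem_PG.2 (Or.inl ⟨rfl, rfl⟩))
  exact not2 ((lab_mem_E PE_lt (by omega)).1 (h1 h2))

theorem n43 : ¬ cm (gr (PF n m) (cl n s0 true)) ≤m cm (gr (PE n m) (cl n s0 true)) := by
  intro h
  have h1 := h.subset
  rw [(cm_spec _).1, (cm_spec _).1] at h1
  have h2 : lab 2 (3 + 2 * n + 1) ∈ E(Gr (PF n m) (cl n s0 true)) :=
    (lab_mem_E PF_lt (by omega)).2 (mem_PF.2 (Or.inr ⟨0, H.m1, rfl, by omega⟩))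
  exact not3 ((lab_mem_E PE_lt (by omega)).1 (h1 h2))

theorem temporal : Temporal ((inst n m L).map cm) := by
  unfold Temporal inst
  simp only [List.map_cons, List.map_nil, List.isChain_cons_cons, List.isChain_singleton,
    and_true]
  exact ⟨Or.inr (m21 H), Or.inr (m32 H), Or.inl m34⟩

theorem correct' : OC.Sat n m L ↔ SimGraphic ((inst n m L).map cm) := by
  constructor
  · rintro ⟨s, hs, ht⟩
    choose! t ht1 ht2 using ht
    have O : Ok n m L s true t := ⟨hs, fun _ e he => ⟨ht1 e he, ht2 e he⟩⟩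
    refine ⟨(inst n m L).map toGraph, ?_, ?_⟩
    · unfold inst
      simp only [List.map_cons, List.map_nil]
      refine .cons ?_ (.cons ?_ (.cons ?_ (.cons ?_ .nil)))
      all_goals exact ⟨(finite_toGraph _).2, (finite_toGraph _).1, cm_spec _⟩
    · unfold inst
      simp only [List.map_cons, List.map_nil, List.zip_cons_cons, List.zip_nil_left,
        List.isChain_cons_cons, List.isChain_singleton, and_true]
      refine ⟨⟨fun h => absurd h (n12 H), fun _ => (data_of_subset PK_lt (PG_sub H)).gminor⟩,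
        ⟨fun h => absurd h (n23 H), fun _ => (contr H O).gminor⟩,
        ⟨fun _ => (data_of_subset PF_lt PE_sub').gminor, fun h => absurd h (n43 H)⟩⟩
  · rintro ⟨G, hG, hc⟩
    unfold inst at hG hc
    simp only [List.map_cons, List.map_nil] at hG hc
    rcases hG with _ | ⟨⟨_, _, g1⟩, hG⟩
    rcases hG with _ | ⟨⟨_, _, g2⟩, hG⟩
    rcases hG with _ | ⟨⟨_, _, g3⟩, hG⟩
    rcases hG with _ | ⟨⟨_, _, g4⟩, hG⟩
    rcases hG
    simp only [List.zip_cons_cons, List.zip_nil_left,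
      List.isChain_cons_cons, List.isChain_singleton, and_true] at hc
    exact sound H (cm_spec _) g1 (cm_spec _) g2 (cm_spec _) g3 (cm_spec _) g4
      (hc.1.2 (m21 H)) (hc.2.1.2 (m32 H)) (hc.2.2.1 m34)

end

/-! ### Polynomial time -/

/-- the reduction -/
def redF (φ : Fml) : List (List (ℕ × ℕ × ℕ)) := inst (OC.nN φ) (OC.nM φ) (OC.LF φ)

theorem hyp (φ : Fml) (h : φ ≠ []) : Hyp (OC.nN φ) (OC.nM φ) (OC.LF φ) := by
  have h1 : 0 < φ.length := List.length_pos_iff.2 h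
  refine ⟨?_, ?_, OC.LF_bound φ⟩
  · unfold OC.nN
    omega
  · unfold OC.nM
    omega

theorem poly_gr {α : Type} [TEnc α] {P : α → List (ℕ × ℕ)} {π : α → ℕ → ℕ} (hP : NPC.Poly P)
    (hπ : NPC.Poly fun p : α × ℕ => π p.1 p.2) : NPC.Poly fun x => gr (P x) (π x) := by
  unfold gr lab
  refine NPC.Poly.map (F := fun x p => (p.2 * p.2 + p.1, π x p.1, π x p.2)) hP ?_
  have h1 : NPC.Poly fun p : α × (ℕ × ℕ) => π p.1 p.2.1 :=
    hπ.comp (NPC.Poly.pair (NPC.Poly.fst NPC.Poly.id) (NPC.Poly.fst (NPC.Poly.snd NPC.Poly.id)))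
  have h2 : NPC.Poly fun p : α × (ℕ × ℕ) => π p.1 p.2.2 :=
    hπ.comp (NPC.Poly.pair (NPC.Poly.fst NPC.Poly.id) (NPC.Poly.snd (NPC.Poly.snd NPC.Poly.id)))
  fun_prop

theorem cl_eq (n v : ℕ) : cl n s0 true v = if v < 3 then v
    else if v < 3 + 2 * n then (if 4 + 2 * ((v - 3) / 2) = v then 1 else 0)
    else if (v - (3 + 2 * n)) % 3 = 0 then 0
    else if (v - (3 + 2 * n)) % 3 = 1 then v else 1 := rfl

theorem upoly_n : UPoly (fun φ : Fml => OC.nN φ) := OC.upoly_nN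

theorem upoly_m : UPoly (fun φ : Fml => OC.nM φ) := OC.upoly_nM

theorem upoly_NN : UPoly (fun φ : Fml => NN (OC.nN φ) (OC.nM φ)) := by
  unfold NN
  exact UPoly.add (UPoly.add (UPoly.const 3) (UPoly.mul (UPoly.const 2) upoly_n))
    (UPoly.mul (UPoly.const 3) upoly_m)

theorem poly_cl : NPC.Poly fun p : Fml × ℕ => cl (OC.nN p.1) s0 true p.2 := by
  have h1 : NPC.Poly fun p : Fml × ℕ => OC.nN p.1 :=
    upoly_n.toPoly.comp (NPC.Poly.fst NPC.Poly.id)
  refine NPC.Poly.congr (f := fun p : Fml × ℕ => if p.2 < 3 then p.2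
    else if p.2 < 3 + 2 * OC.nN p.1 then (if 4 + 2 * ((p.2 - 3) / 2) = p.2 then 1 else 0)
    else if (p.2 - (3 + 2 * OC.nN p.1)) % 3 = 0 then 0
    else if (p.2 - (3 + 2 * OC.nN p.1)) % 3 = 1 then p.2 else 1) ?_ fun p => (cl_eq _ _).symm
  fun_prop

theorem poly_PK : NPC.Poly fun φ : Fml => PK (NN (OC.nN φ) (OC.nM φ)) := by
  unfold PK
  refine NPC.Poly.flatMap (F := fun (φ : Fml) v => ((List.range (NN (OC.nN φ) (OC.nM φ))).filter
    fun u => decide (u < v)).map fun u => (u, v)) upoly_NN.range ?_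
  have h1 : NPC.Poly fun p : Fml × ℕ => List.range (NN (OC.nN p.1) (OC.nM p.1)) :=
    upoly_NN.range.comp (NPC.Poly.fst NPC.Poly.id)
  refine NPC.Poly.map (F := fun (p : Fml × ℕ) (u : ℕ) => (u, p.2)) ?_ (by fun_prop)
  exact NPC.Poly.filter (p := fun (p : Fml × ℕ) (u : ℕ) => decide (u < p.2)) h1 (by fun_prop)

theorem poly_PG : NPC.Poly fun φ : Fml => PG (OC.nN φ) (OC.nM φ) (OC.LF φ) := by
  have h1 : NPC.Poly fun p : Fml × ℕ => OC.nN p.1 :=
    upoly_n.toPoly.comp (NPC.Poly.fst NPC.Poly.id)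
  unfold PG
  refine NPC.Poly.append (NPC.Poly.append (NPC.Poly.append (NPC.Poly.const _) ?_) ?_) ?_
  · refine NPC.Poly.flatMap (F := fun (_ : Fml) l => [(0, 3 + l), (1, 3 + l)])
      (UPoly.mul (UPoly.const 2) upoly_n).range (by fun_prop)
  · exact NPC.Poly.map (F := fun (_ : Fml) a => (3 + 2 * a, 4 + 2 * a)) upoly_n.range
      (by fun_prop)
  · refine NPC.Poly.flatMap (F := fun (φ : Fml) e =>
      [(1, 3 + 2 * OC.nN φ + 3 * e), (0, 3 + 2 * OC.nN φ + 3 * e + 1),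
        (0, 3 + 2 * OC.nN φ + 3 * e + 2),
        (1, 3 + 2 * OC.nN φ + 3 * e + 2), (3 + 2 * OC.nN φ + 3 * e, 3 + 2 * OC.nN φ + 3 * e + 1),
        (3 + 2 * OC.nN φ + 3 * e + 1, 3 + 2 * OC.nN φ + 3 * e + 2)] ++
      (OC.LF φ e).map fun l => (l, 3 + 2 * OC.nN φ + 3 * e)) upoly_m.range ?_
    refine NPC.Poly.append (by fun_prop) ?_
    have h2 : NPC.Poly fun p : Fml × ℕ => OC.LF p.1 p.2 :=
      OC.poly_LF (NPC.Poly.fst NPC.Poly.id) (NPC.Poly.snd NPC.Poly.id)
    refine NPC.Poly.map (F := fun (p : Fml × ℕ) l => (l, 3 + 2 * OC.nN p.1 + 3 * p.2)) h2 ?_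
    have h3 : NPC.Poly fun p : (Fml × ℕ) × ℕ => OC.nN p.1.1 :=
      h1.comp (NPC.Poly.fst NPC.Poly.id)
    fun_prop

theorem poly_PE : NPC.Poly fun φ : Fml => PE (OC.nN φ) (OC.nM φ) := by
  have h1 : NPC.Poly fun p : Fml × ℕ => OC.nN p.1 :=
    upoly_n.toPoly.comp (NPC.Poly.fst NPC.Poly.id)
  unfold PE
  refine NPC.Poly.append (NPC.Poly.append (NPC.Poly.const _) ?_) ?_
  · exact NPC.Poly.map (F := fun (_ : Fml) a => (3 + 2 * a, 4 + 2 * a)) upoly_n.range
      (by fun_prop)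
  · refine NPC.Poly.flatMap (F := fun (φ : Fml) e =>
      [(3 + 2 * OC.nN φ + 3 * e, 3 + 2 * OC.nN φ + 3 * e + 1),
        (3 + 2 * OC.nN φ + 3 * e + 1, 3 + 2 * OC.nN φ + 3 * e + 2)]) upoly_m.range ?_
    fun_prop

theorem poly_PF : NPC.Poly fun φ : Fml => PF (OC.nN φ) (OC.nM φ) := by
  have h1 : NPC.Poly fun p : Fml × ℕ => OC.nN p.1 :=
    upoly_n.toPoly.comp (NPC.Poly.fst NPC.Poly.id)
  unfold PF
  refine NPC.Poly.append poly_PE ?_
  refine NPC.Poly.map (F := fun (φ : Fml) e => (2, 3 + 2 * OC.nN φ + 3 * e + 1)) upoly_m.range ?_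
  fun_prop

theorem poly_redF : NPC.Poly redF := by
  unfold redF inst
  have hid : NPC.Poly fun p : Fml × ℕ => (id p.2 : ℕ) := NPC.Poly.snd NPC.Poly.id
  exact NPC.Poly.cons (poly_gr (π := fun _ => id) poly_PK hid)
    (NPC.Poly.cons (poly_gr (π := fun _ => id) poly_PG hid)
    (NPC.Poly.cons (poly_gr (π := fun φ => cl (OC.nN φ) s0 true) poly_PE poly_cl)
    (NPC.Poly.cons (poly_gr (π := fun φ => cl (OC.nN φ) s0 true) poly_PF poly_cl)
      (NPC.Poly.const []))))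

end Pool.Agent.R550.TM
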