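import Pool.Agent.R550.TM.Shapes

/-!
# The four graphs of the reduction
-/

set_option autoImplicit false

namespace Pool.Agent.R550.TM

open Relation Graph

/-- The pairs of the second graph. The vertices are `0`, `1`, `2`, the literals `3, …, 2 + 2 n` and
three vertices `C`, `C + 1`, `C + 2` for every clause, `C = 3 + 2 n + 3 e`. -/
def PG (n m : ℕ) (L : ℕ → List ℕ) : List (ℕ × ℕ) :=
  [(0, 1), (0, 2), (1, 2)] ++ ((List.range (2 * n)).flatMap fun l => [(0, 3 + l), (1, 3 + l)]) ++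
    ((List.range n).map fun a => (3 + 2 * a, 4 + 2 * a)) ++
    (List.range m).flatMap fun e =>
      [(1, 3 + 2 * n + 3 * e), (0, 3 + 2 * n + 3 * e + 1), (0, 3 + 2 * n + 3 * e + 2),
        (1, 3 + 2 * n + 3 * e + 2), (3 + 2 * n + 3 * e, 3 + 2 * n + 3 * e + 1),
        (3 + 2 * n + 3 * e + 1, 3 + 2 * n + 3 * e + 2)] ++
      (L e).map fun l => (l, 3 + 2 * n + 3 * e)

/-- The pairs of the third graph. -/
def PE (n m : ℕ) : List (ℕ × ℕ) :=
  [(0, 2), (1, 2)] ++ ((List.range n).map fun a => (3 + 2 * a, 4 + 2 * a)) ++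
    (List.range m).flatMap fun e =>
      [(3 + 2 * n + 3 * e, 3 + 2 * n + 3 * e + 1), (3 + 2 * n + 3 * e + 1, 3 + 2 * n + 3 * e + 2)]

/-- The pairs of the fourth graph. -/
def PF (n m : ℕ) : List (ℕ × ℕ) :=
  PE n m ++ (List.range m).map fun e => (2, 3 + 2 * n + 3 * e + 1)

/-- The contraction. `s` gives the false literals. -/
def cl (n : ℕ) (s : ℕ → ℕ) (b : Bool) (v : ℕ) : ℕ :=
  if v < 3 then v
  else if v < 3 + 2 * n then (if s ((v - 3) / 2) = v then 1 else 0)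
  else if (v - (3 + 2 * n)) % 3 = 0 then (if b = true then 0 else 1)
  else if (v - (3 + 2 * n)) % 3 = 1 then v
  else (if b = true then 1 else 0)

/-- The standard choice of the false literals. -/
def s0 (a : ℕ) : ℕ := 4 + 2 * a

theorem mem_PG {n m : ℕ} {L : ℕ → List ℕ} {u v : ℕ} : (u, v) ∈ PG n m L ↔
    (u = 0 ∧ v = 1) ∨ (u = 0 ∧ v = 2) ∨ (u = 1 ∧ v = 2) ∨
    (∃ l < 2 * n, (u = 0 ∨ u = 1) ∧ v = 3 + l) ∨ (∃ a < n, u = 3 + 2 * a ∧ v = 4 + 2 * a) ∨
    ∃ e < m, (u = 1 ∧ v = 3 + 2 * n + 3 * e) ∨ (u = 0 ∧ v = 3 + 2 * n + 3 * e + 1) ∨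
      (u = 0 ∧ v = 3 + 2 * n + 3 * e + 2) ∨ (u = 1 ∧ v = 3 + 2 * n + 3 * e + 2) ∨
      (u = 3 + 2 * n + 3 * e ∧ v = 3 + 2 * n + 3 * e + 1) ∨
      (u = 3 + 2 * n + 3 * e + 1 ∧ v = 3 + 2 * n + 3 * e + 2) ∨
      (u ∈ L e ∧ v = 3 + 2 * n + 3 * e) := by
  unfold PG
  simp only [List.mem_append, List.mem_flatMap, List.mem_map, List.mem_range, List.mem_cons,
    List.not_mem_nil, or_false, Prod.mk.injEq]
  constructor
  · rintro (((h | ⟨l, hl, h⟩) | ⟨a, ha, h1, h2⟩) | ⟨e, he, h⟩)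
    · tauto
    · refine Or.inr (Or.inr (Or.inr (Or.inl ⟨l, hl, ?_⟩)))
      tauto
    · exact Or.inr (Or.inr (Or.inr (Or.inr (Or.inl ⟨a, ha, h1.symm, h2.symm⟩))))
    · refine Or.inr (Or.inr (Or.inr (Or.inr (Or.inr ⟨e, he, ?_⟩))))
      rcases h with h | ⟨l, hl, rfl, rfl⟩
      · tauto
      · tauto
  · rintro (h | h | h | ⟨l, hl, h⟩ | ⟨a, ha, h1, h2⟩ | ⟨e, he, h⟩)
    · tauto
    · tauto
    · tauto
    · refine Or.inl (Or.inl (Or.inr ⟨l, hl, ?_⟩))
      tauto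
    · exact Or.inl (Or.inr ⟨a, ha, h1.symm, h2.symm⟩)
    · refine Or.inr ⟨e, he, ?_⟩
      rcases h with h | h | h | h | h | h | ⟨h1, h2⟩
      · tauto
      · tauto
      · tauto
      · tauto
      · tauto
      · tauto
      · exact Or.inr ⟨u, h1, rfl, h2.symm⟩

theorem mem_PE {n m u v : ℕ} : (u, v) ∈ PE n m ↔
    (u = 0 ∧ v = 2) ∨ (u = 1 ∧ v = 2) ∨ (∃ a < n, u = 3 + 2 * a ∧ v = 4 + 2 * a) ∨
    ∃ e < m, (u = 3 + 2 * n + 3 * e ∧ v = 3 + 2 * n + 3 * e + 1) ∨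
      (u = 3 + 2 * n + 3 * e + 1 ∧ v = 3 + 2 * n + 3 * e + 2) := by
  unfold PE
  simp only [List.mem_append, List.mem_flatMap, List.mem_map, List.mem_range, List.mem_cons,
    List.not_mem_nil, or_false, Prod.mk.injEq]
  constructor
  · rintro ((h | ⟨a, ha, h1, h2⟩) | ⟨e, he, h⟩)
    · tauto
    · exact Or.inr (Or.inr (Or.inl ⟨a, ha, h1.symm, h2.symm⟩))
    · exact Or.inr (Or.inr (Or.inr ⟨e, he, h⟩))
  · rintro (h | h | ⟨a, ha, h1, h2⟩ | ⟨e, he, h⟩)
    · tauto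
    · tauto
    · exact Or.inl (Or.inr ⟨a, ha, h1.symm, h2.symm⟩)
    · exact Or.inr ⟨e, he, h⟩

theorem mem_PF {n m u v : ℕ} : (u, v) ∈ PF n m ↔ (u, v) ∈ PE n m ∨
    ∃ e < m, u = 2 ∧ v = 3 + 2 * n + 3 * e + 1 := by
  unfold PF
  simp only [List.mem_append, List.mem_map, List.mem_range, Prod.mk.injEq]
  constructor
  · rintro (h | ⟨e, he, h1, h2⟩)
    · exact Or.inl h
    · exact Or.inr ⟨e, he, h1.symm, h2.symm⟩
  · rintro (h | ⟨e, he, h1, h2⟩)
    · exact Or.inl h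
    · exact Or.inr ⟨e, he, h1.symm, h2.symm⟩

theorem cl_lt3 {n : ℕ} {s : ℕ → ℕ} {b : Bool} {v : ℕ} (h : v < 3) : cl n s b v = v := by
  unfold cl
  rw [if_pos h]

theorem cl_lit {n : ℕ} {s : ℕ → ℕ} {b : Bool} {v : ℕ} (h : 3 ≤ v) (h' : v < 3 + 2 * n) :
    cl n s b v = if s ((v - 3) / 2) = v then 1 else 0 := by
  unfold cl
  rw [if_neg (by omega), if_pos h']

theorem cl_C {n : ℕ} {s : ℕ → ℕ} {b : Bool} {e : ℕ} :
    cl n s b (3 + 2 * n + 3 * e) = if b = true then 0 else 1 := by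
  unfold cl
  rw [if_neg (by omega), if_neg (by omega), if_pos (by omega)]

theorem cl_D {n : ℕ} {s : ℕ → ℕ} {b : Bool} {e : ℕ} :
    cl n s b (3 + 2 * n + 3 * e + 1) = 3 + 2 * n + 3 * e + 1 := by
  unfold cl
  rw [if_neg (by omega), if_neg (by omega), if_neg (by omega), if_pos (by omega)]

theorem cl_G {n : ℕ} {s : ℕ → ℕ} {b : Bool} {e : ℕ} :
    cl n s b (3 + 2 * n + 3 * e + 2) = if b = true then 1 else 0 := by
  unfold cl
  rw [if_neg (by omega), if_neg (by omega), if_neg (by omega), if_neg (by omega)]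

/-- the other end of the contracted edge at `v` -/
def par (n : ℕ) (s : ℕ → ℕ) (b : Bool) (t : ℕ → ℕ) (v : ℕ) : ℕ :=
  if v < 3 + 2 * n then (if s ((v - 3) / 2) = v then 1 else 0)
  else if (v - (3 + 2 * n)) % 3 = 0 then (if b = true then t ((v - (3 + 2 * n)) / 3) else 1)
  else (if b = true then 1 else 0)

theorem par_lit {n : ℕ} {s : ℕ → ℕ} {b : Bool} {t : ℕ → ℕ} {v : ℕ} (h' : v < 3 + 2 * n) :
    par n s b t v = if s ((v - 3) / 2) = v then 1 else 0 := by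
  unfold par
  rw [if_pos h']

theorem par_C {n : ℕ} {s : ℕ → ℕ} {b : Bool} {t : ℕ → ℕ} {e : ℕ} :
    par n s b t (3 + 2 * n + 3 * e) = if b = true then t e else 1 := by
  unfold par
  rw [if_neg (by omega), if_pos (by omega), show (3 + 2 * n + 3 * e - (3 + 2 * n)) / 3 = e by omega]

theorem par_G {n : ℕ} {s : ℕ → ℕ} {b : Bool} {t : ℕ → ℕ} {e : ℕ} :
    par n s b t (3 + 2 * n + 3 * e + 2) = if b = true then 1 else 0 := by
  unfold par
  rw [if_neg (by omega), if_neg (by omega)]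

/-- the hypotheses on the formula -/
structure Hyp (n m : ℕ) (L : ℕ → List ℕ) : Prop where
  n1 : 1 ≤ n
  m1 : 1 ≤ m
  lt : ∀ e < m, ∀ l ∈ L e, 3 ≤ l ∧ l < 3 + 2 * n

/-- the number of vertices -/
def NN (n m : ℕ) : ℕ := 3 + 2 * n + 3 * m

section

variable {n m : ℕ} {L : ℕ → List ℕ} (H : Hyp n m L)

include H

theorem PG_bd {u v : ℕ} (h : (u, v) ∈ PG n m L) : u < v ∧ v < NN n m := by
  have := H.n1
  unfold NN
  rcases mem_PG.1 h with h | h | h | ⟨l, hl, h⟩ | ⟨a, ha, h⟩ | ⟨e, he, h⟩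
  · omega
  · omega
  · omega
  · omega
  · omega
  · rcases h with h | h | h | h | h | h | ⟨h1, h2⟩
    · omega
    · omega
    · omega
    · omega
    · omega
    · omega
    · have := H.lt e he u h1
      omega

theorem PG_lt : ∀ p ∈ PG n m L, p.1 < p.2 := fun p hp => (PG_bd H (show (p.1, p.2) ∈ _ from hp)).1

theorem PG_sub : ∀ p ∈ PG n m L, p ∈ PK (NN n m) := fun p hp =>
  mem_PK.2 (PG_bd H (show (p.1, p.2) ∈ _ from hp))

omit H in
theorem PE_sub : ∀ p ∈ PE n m, p ∈ PG n m L := by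
  rintro ⟨u, v⟩ hp
  rw [mem_PG]
  rcases mem_PE.1 hp with h | h | ⟨a, ha, h⟩ | ⟨e, he, h⟩
  · tauto
  · tauto
  · exact Or.inr (Or.inr (Or.inr (Or.inr (Or.inl ⟨a, ha, h⟩))))
  · refine Or.inr (Or.inr (Or.inr (Or.inr (Or.inr ⟨e, he, ?_⟩))))
    tauto

omit H in
theorem PF_lt : ∀ p ∈ PF n m, p.1 < p.2 := by
  rintro ⟨u, v⟩ hp
  rcases mem_PF.1 hp with h | ⟨e, he, h⟩
  · rcases mem_PE.1 h with h | h | ⟨a, ha, h⟩ | ⟨e, he, h⟩ <;> dsimp only <;> omega
  · dsimp only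
    omega

omit H in
theorem PE_sub' : ∀ p ∈ PE n m, p ∈ PF n m := fun _ hp => mem_PF.2 (Or.inl hp)

omit H in
theorem PE_lt : ∀ p ∈ PE n m, p.1 < p.2 := fun p hp => PF_lt p (PE_sub' p hp)

theorem not1 : (2, 3) ∉ PG n m L := by
  intro h
  have := H.n1
  rcases mem_PG.1 h with h | h | h | ⟨l, hl, h⟩ | ⟨a, ha, h⟩ | ⟨e, he, h⟩
  · omega
  · omega
  · omega
  · omega
  · omega
  · rcases h with h | h | h | h | h | h | ⟨h1, h2⟩ <;> omega

omit H in
theorem not2 : (0, 1) ∉ PE n m := by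
  intro h
  rcases mem_PE.1 h with h | h | ⟨a, ha, h⟩ | ⟨e, he, h⟩ <;> omega

omit H in
theorem not3 : (2, 3 + 2 * n + 1) ∉ PE n m := by
  intro h
  rcases mem_PE.1 h with h | h | ⟨a, ha, h⟩ | ⟨e, he, h⟩ <;> omega

/-! ### The vertex sets -/

theorem V_G {v : ℕ} : v ∈ V(Gr (PG n m L) id) ↔ v < NN n m := by
  have hn := H.n1
  rw [mem_V (PG_lt H)]
  constructor
  · rintro ⟨u', v', h1, h2⟩
    have := PG_bd H h1
    simp only [id] at h2
    omega
  · intro hv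
    unfold NN at hv
    have h3 : v < 3 + 2 * n ∨ (∃ e < m, v = 3 + 2 * n + 3 * e ∨ v = 3 + 2 * n + 3 * e + 1 ∨
        v = 3 + 2 * n + 3 * e + 2) := by
      by_cases h : v < 3 + 2 * n
      · exact Or.inl h
      · exact Or.inr ⟨(v - (3 + 2 * n)) / 3, by omega, by omega⟩
    rcases h3 with h3 | ⟨e, he, h3⟩
    · by_cases h4 : v < 3
      · by_cases h5 : v = 2
        · exact ⟨0, 2, mem_PG.2 (Or.inr (Or.inl ⟨rfl, rfl⟩)), Or.inr h5⟩
        · refine ⟨0, 1, mem_PG.2 (Or.inl ⟨rfl, rfl⟩), ?_⟩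
          simp only [id]
          omega
      · exact ⟨0, v, mem_PG.2 (Or.inr (Or.inr (Or.inr (Or.inl ⟨v - 3, by omega, Or.inl rfl,
          by omega⟩)))), Or.inr rfl⟩
    · rcases h3 with rfl | rfl | rfl
      · exact ⟨1, _, mem_PG.2 (Or.inr (Or.inr (Or.inr (Or.inr (Or.inr ⟨e, he,
          Or.inl ⟨rfl, rfl⟩⟩))))), Or.inr rfl⟩
      · exact ⟨0, _, mem_PG.2 (Or.inr (Or.inr (Or.inr (Or.inr (Or.inr ⟨e, he,
          Or.inr (Or.inl ⟨rfl, rfl⟩)⟩))))), Or.inr rfl⟩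
      · exact ⟨0, _, mem_PG.2 (Or.inr (Or.inr (Or.inr (Or.inr (Or.inr ⟨e, he,
          Or.inr (Or.inr (Or.inl ⟨rfl, rfl⟩))⟩))))), Or.inr rfl⟩

/-! ### The contraction -/

/-- the vertices with a contracted edge -/
def PP (n m v : ℕ) : Prop := 3 ≤ v ∧ v < NN n m ∧ ¬ (3 + 2 * n ≤ v ∧ (v - (3 + 2 * n)) % 3 = 1)

/-- the contracted edges -/
def ZZ (n m : ℕ) (s : ℕ → ℕ) (b : Bool) (t : ℕ → ℕ) : Set ℕ :=
  {z | ∃ v, PP n m v ∧ z = lab (par n s b t v) v}

/-- the hypotheses on the contraction -/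
structure Ok (n m : ℕ) (L : ℕ → List ℕ) (s : ℕ → ℕ) (b : Bool) (t : ℕ → ℕ) : Prop where
  hs : ∀ a < n, s a = 3 + 2 * a ∨ s a = 4 + 2 * a
  ht : b = true → ∀ e < m, t e ∈ L e ∧ s ((t e - 3) / 2) ≠ t e

omit H in
theorem PP_cases {v : ℕ} (h : PP n m v) : (∃ l < 2 * n, v = 3 + l) ∨
    ∃ e < m, v = 3 + 2 * n + 3 * e ∨ v = 3 + 2 * n + 3 * e + 2 := by
  obtain ⟨h1, h2, h3⟩ := h
  unfold NN at h2
  by_cases h4 : v < 3 + 2 * n
  · exact Or.inl ⟨v - 3, by omega, by omega⟩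
  · exact Or.inr ⟨(v - (3 + 2 * n)) / 3, by omega, by omega⟩

variable {s : ℕ → ℕ} {b : Bool} {t : ℕ → ℕ} (O : Ok n m L s b t)

include O

theorem par_mem {v : ℕ} (h : PP n m v) : (par n s b t v, v) ∈ PG n m L := by
  rw [mem_PG]
  rcases PP_cases h with ⟨l, hl, rfl⟩ | ⟨e, he, rfl | rfl⟩
  · refine Or.inr (Or.inr (Or.inr (Or.inl ⟨l, hl, ?_, rfl⟩)))
    rw [par_lit (by omega)]
    split_ifs
    · exact Or.inr rfl
    · exact Or.inl rfl
  · refine Or.inr (Or.inr (Or.inr (Or.inr (Or.inr ⟨e, he, ?_⟩))))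
    rw [par_C]
    split_ifs with hb
    · have h1 := (O.ht hb e he).1
      tauto
    · tauto
  · refine Or.inr (Or.inr (Or.inr (Or.inr (Or.inr ⟨e, he, ?_⟩))))
    rw [par_G]
    split_ifs
    · tauto
    · tauto

omit H O in
theorem par_nmem {v : ℕ} (h : PP n m v) : (par n s b t v, v) ∉ PE n m := by
  intro h1
  rcases mem_PE.1 h1 with h1 | h1 | ⟨a, ha, h1, h2⟩ | ⟨e, he, h1 | h1⟩
  · have := h.1
    omega
  · have := h.1
    omega
  · rw [par_lit (by omega)] at h1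
    split_ifs at h1 <;> omega
  · have := h.2.2
    omega
  · obtain ⟨h1, rfl⟩ := h1
    rw [par_G] at h1
    split_ifs at h1 <;> omega

theorem cl_par {v : ℕ} (h : PP n m v) : cl n s b (par n s b t v) = cl n s b v := by
  rcases PP_cases h with ⟨l, hl, rfl⟩ | ⟨e, he, rfl | rfl⟩
  · rw [par_lit (by omega), cl_lit (v := 3 + l) (by omega) (by omega)]
    split_ifs
    · exact cl_lt3 (by omega)
    · exact cl_lt3 (by omega)
  · rw [par_C, cl_C]
    split_ifs with hb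
    · obtain ⟨h4, h5⟩ := O.ht hb e he
      have h6 := H.lt e he _ h4
      rw [cl_lit h6.1 h6.2, if_neg h5]
    · exact cl_lt3 (by omega)
  · rw [par_G, cl_G]
    split_ifs
    · exact cl_lt3 (by omega)
    · exact cl_lt3 (by omega)

theorem joined_cl {v : ℕ} (hv : v < NN n m) :
    Joined (Gr (PG n m L) id) (ZZ n m s b t) v (cl n s b v) := by
  have one : ∀ v, PP n m v → Joined (Gr (PG n m L) id) (ZZ n m s b t) v (par n s b t v) := by
    intro v h
    exact Joined.one (e := lab (par n s b t v) v) ⟨v, h, rfl⟩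
      (link_of_mem (PG_lt H) (par_mem H O h)).symm
  by_cases h : PP n m v
  · rcases PP_cases h with ⟨l, hl, rfl⟩ | ⟨e, he, rfl | rfl⟩
    · have h1 := one _ h
      rw [par_lit (by omega)] at h1
      rw [cl_lit (v := 3 + l) (by omega) (by omega)]
      exact h1
    · have h5 := one _ h
      rw [par_C] at h5
      rw [cl_C]
      split_ifs with hb
      · rw [if_pos hb] at h5
        obtain ⟨h6, h7⟩ := O.ht hb e he
        have h8 := H.lt e he _ h6
        have h9 : PP n m (t e) := ⟨h8.1, by unfold NN; omega, by omega⟩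
        have h10 := one _ h9
        rw [par_lit (by omega), if_neg h7] at h10
        exact h5.trans h10
      · rw [if_neg hb] at h5
        exact h5
    · have h1 := one _ h
      rw [par_G] at h1
      rw [cl_G]
      exact h1
  · have h1 : cl n s b v = v := by
      unfold PP at h
      by_cases h2 : v < 3
      · exact cl_lt3 h2
      · obtain ⟨e, rfl⟩ : ∃ e, v = 3 + 2 * n + 3 * e + 1 :=
          ⟨(v - (3 + 2 * n)) / 3, by omega⟩
        exact cl_D
    rw [h1]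
    exact ReflTransGen.refl

theorem contr : MinorData (Gr (PE n m) (cl n s0 b)) (Gr (PG n m L) id) (ZZ n m s b t)
    (cl n s b) := by
  refine ⟨?_, ?_, ?_⟩
  · intro u hu v hv
    rw [V_G H] at hu hv
    constructor
    · intro h
      have h1 := joined_cl H O hu
      have h2 := joined_cl H O hv
      rw [h] at h1
      exact h1.trans h2.symm
    · intro h
      clear hv
      induction h with
      | refl => rfl
      | tail _ hs ih =>
        rw [ih]
        obtain ⟨z, ⟨v', hv', rfl⟩, hl⟩ := hs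
        have h1 := link_of_mem (π := id) (PG_lt H) (par_mem H O hv')
        have h2 := cl_par H O hv'
        rcases hl.eq_and_eq_or_eq_and_eq h1 with ⟨rfl, rfl⟩ | ⟨rfl, rfl⟩
        · exact h2
        · exact h2.symm
  · rw [Set.disjoint_left]
    rintro z ⟨v, hv, rfl⟩ hz
    rw [lab_mem_E PE_lt (PG_lt H _ (par_mem H O hv))] at hz
    exact par_nmem hv hz
  · have key : ∀ u v, (u, v) ∈ PE n m → ∃ u' v', (Gr (PG n m L) id).IsLink (lab u v) u' v' ∧
        cl n s b u' = cl n s0 b u ∧ cl n s b v' = cl n s0 b v := by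
      intro u v h
      have h1 := link_of_mem (π := id) (PG_lt H) (PE_sub _ h)
      rcases mem_PE.1 h with ⟨rfl, rfl⟩ | ⟨rfl, rfl⟩ | ⟨a, ha, rfl, rfl⟩ | ⟨e, he, h3⟩
      · exact ⟨0, 2, h1, rfl, rfl⟩
      · exact ⟨1, 2, h1, rfl, rfl⟩
      · have e1 : cl n s0 b (3 + 2 * a) = 0 := by
          rw [cl_lit (by omega) (by omega), if_neg]
          unfold s0
          omega
        have e2 : cl n s0 b (4 + 2 * a) = 1 := by
          rw [cl_lit (by omega) (by omega), if_pos]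
          unfold s0
          omega
        have e3 : cl n s b (3 + 2 * a) = if s a = 3 + 2 * a then 1 else 0 := by
          rw [cl_lit (by omega) (by omega), show (3 + 2 * a - 3) / 2 = a by omega]
        have e4 : cl n s b (4 + 2 * a) = if s a = 4 + 2 * a then 1 else 0 := by
          rw [cl_lit (by omega) (by omega), show (4 + 2 * a - 3) / 2 = a by omega]
        rcases O.hs a ha with h4 | h4
        · refine ⟨4 + 2 * a, 3 + 2 * a, h1.symm, ?_, ?_⟩
          · rw [e1, e4, if_neg (by omega)]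
          · rw [e2, e3, if_pos h4]
        · refine ⟨3 + 2 * a, 4 + 2 * a, h1, ?_, ?_⟩
          · rw [e1, e3, if_neg (by omega)]
          · rw [e2, e4, if_pos h4]
      · rcases h3 with ⟨rfl, rfl⟩ | ⟨rfl, rfl⟩
        · exact ⟨_, _, h1, by rw [id, cl_C, cl_C], by rw [id, cl_D, cl_D]⟩
        · exact ⟨_, _, h1, by rw [id, cl_D, cl_D], by rw [id, cl_G, cl_G]⟩
    have key2 : ∀ ⦃e x y⦄, (Gr (PE n m) (cl n s0 b)).IsLink e x y →
        ((Gr (PG n m L) id).map (cl n s b)).IsLink e x y := by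
      intro e x y h
      obtain ⟨u, v, h1, rfl, h3⟩ := (link_gr PE_lt).1 h
      obtain ⟨u', v', h4, h5, h6⟩ := key u v h1
      rcases h3 with ⟨rfl, rfl⟩ | ⟨rfl, rfl⟩
      · exact ⟨u', v', h4, h5, h6⟩
      · exact ⟨v', u', h4.symm, h6, h5⟩
    refine ⟨?_, key2⟩
    intro x hx
    obtain ⟨u, v, h1, h2⟩ := (mem_V PE_lt).1 hx
    have h3 := key2 (link_of_mem PE_lt h1)
    rcases h2 with rfl | rfl
    · exact h3.left_mem
    · exact h3.right_mem

end

theorem ok0 (n m : ℕ) (L : ℕ → List ℕ) : Ok n m L s0 false (fun _ => 0) :=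
  ⟨fun _ _ => Or.inr rfl, fun h => absurd h (by decide)⟩

theorem forest_Z {n m : ℕ} {L : ℕ → List ℕ} (H : Hyp n m L) :
    Forest (Gr (PG n m L) id) (ZZ n m s0 false fun _ => 0) := by
  refine forest_of_cuts ?_
  rintro _ ⟨v, hv, rfl⟩
  have h1 := link_of_mem (π := id) (PG_lt H) (par_mem H (ok0 n m L) hv)
  have hpar : ∀ v, par n s0 false (fun _ => 0) v < 2 := by
    intro v
    unfold par
    split_ifs <;> first | omega | simp_all
  refine ⟨v, par n s0 false (fun _ => 0) v, h1.symm, {v}, rfl, ?_, ?_⟩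
  · intro h
    rw [Set.mem_singleton_iff] at h
    have := hpar v
    have := hv.1
    omega
  · rintro _ ⟨v', hv', rfl⟩ hne a b hl ha
    rw [Set.mem_singleton_iff] at ha
    have h2 := link_of_mem (π := id) (PG_lt H) (par_mem H (ok0 n m L) hv')
    have := hpar v'
    have := hv.1
    rcases hl.eq_and_eq_or_eq_and_eq h2 with ⟨h3, h4⟩ | ⟨h3, h4⟩
    · simp only [id] at h3
      omega
    · simp only [id] at h3
      rw [ha] at h3
      exact absurd (by rw [h3]) hne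

theorem Z_sub {n m : ℕ} {L : ℕ → List ℕ} (H : Hyp n m L) :
    ZZ n m s0 false (fun _ => 0) ⊆ E(Gr (PG n m L) id) := by
  rintro _ ⟨v, hv, rfl⟩
  exact (link_of_mem (π := id) (PG_lt H) (par_mem H (ok0 n m L) hv)).edge_mem

end Pool.Agent.R550.TM
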