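import Pool.Agent.R550.TM.Inst
import Pool.Agent.R550.OC.Main

/-!
# Correctness of the reduction
-/

set_option autoImplicit false

namespace Pool.Agent.R550.TM

open Relation Graph

/-! ### Small circuits -/

theorem path2 {G : Graph ℕ ℕ} {e1 e2 a b c : ℕ} (l1 : G.IsLink e1 a b) (l2 : G.IsLink e2 a c)
    (hab : a ≠ b) (hac : a ≠ c) (hbc : b ≠ c) : Forest G {e1, e2} := by
  refine forest_of_cuts ?_
  rintro e (rfl | rfl)
  · refine ⟨b, a, l1.symm, {b}, rfl, fun h => hab h, ?_⟩
    rintro z (rfl | rfl) hne s t hl hs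
    · exact absurd rfl hne
    · rw [Set.mem_singleton_iff] at hs ⊢
      rcases hl.eq_and_eq_or_eq_and_eq l2 with ⟨h, h'⟩ | ⟨h, h'⟩ <;> omega
  · refine ⟨c, a, l2.symm, {c}, rfl, fun h => hac h, ?_⟩
    rintro z (rfl | rfl) hne s t hl hs
    · rw [Set.mem_singleton_iff] at hs ⊢
      rcases hl.eq_and_eq_or_eq_and_eq l1 with ⟨h, h'⟩ | ⟨h, h'⟩ <;> omega
    · exact absurd rfl hne

theorem path3 {G : Graph ℕ ℕ} {e1 e2 e3 a b c d : ℕ} (l1 : G.IsLink e1 a b)
    (l2 : G.IsLink e2 b c) (l3 : G.IsLink e3 c d) (hab : a ≠ b) (hac : a ≠ c) (had : a ≠ d)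
    (hbc : b ≠ c) (hbd : b ≠ d) (hcd : c ≠ d) : Forest G {e1, e2, e3} := by
  refine forest_of_cuts ?_
  rintro e (rfl | rfl | rfl)
  · refine ⟨a, b, l1, {a}, rfl, fun h => hab h.symm, ?_⟩
    rintro z (rfl | rfl | rfl) hne s t hl hs
    · exact absurd rfl hne
    · rw [Set.mem_singleton_iff] at hs ⊢
      rcases hl.eq_and_eq_or_eq_and_eq l2 with ⟨h, h'⟩ | ⟨h, h'⟩ <;> omega
    · rw [Set.mem_singleton_iff] at hs ⊢
      rcases hl.eq_and_eq_or_eq_and_eq l3 with ⟨h, h'⟩ | ⟨h, h'⟩ <;> omega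
  · refine ⟨b, c, l2, {a, b}, Or.inr rfl, ?_, ?_⟩
    · rintro (h | h)
      · exact hac h.symm
      · exact hbc h.symm
    rintro z (rfl | rfl | rfl) hne s t hl hs
    · simp only [Set.mem_insert_iff, Set.mem_singleton_iff] at hs ⊢
      rcases hl.eq_and_eq_or_eq_and_eq l1 with ⟨h, h'⟩ | ⟨h, h'⟩ <;> omega
    · exact absurd rfl hne
    · simp only [Set.mem_insert_iff, Set.mem_singleton_iff] at hs ⊢
      rcases hl.eq_and_eq_or_eq_and_eq l3 with ⟨h, h'⟩ | ⟨h, h'⟩ <;> omega
  · refine ⟨d, c, l3.symm, {d}, rfl, fun h => hcd h, ?_⟩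
    rintro z (rfl | rfl | rfl) hne s t hl hs
    · rw [Set.mem_singleton_iff] at hs ⊢
      rcases hl.eq_and_eq_or_eq_and_eq l1 with ⟨h, h'⟩ | ⟨h, h'⟩ <;> omega
    · rw [Set.mem_singleton_iff] at hs ⊢
      rcases hl.eq_and_eq_or_eq_and_eq l2 with ⟨h, h'⟩ | ⟨h, h'⟩ <;> omega
    · exact absurd rfl hne

theorem single_forest {G : Graph ℕ ℕ} {e a b : ℕ} (l : G.IsLink e a b) (hab : a ≠ b) :
    Forest G {e} := by
  refine forest_of_cuts ?_
  rintro _ rfl
  refine ⟨a, b, l, {a}, rfl, fun h => hab h.symm, ?_⟩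
  rintro _ rfl hne
  exact absurd rfl hne

theorem quad_sum {M : Matroid ℕ} {H G : Graph ℕ ℕ} (hH : IsCycleMatroid M H)
    (hG : IsCycleMatroid M G) {e1 e2 e3 e4 a b c d : ℕ} (l1 : H.IsLink e1 a b)
    (l2 : H.IsLink e2 b c) (l3 : H.IsLink e3 c d) (l4 : H.IsLink e4 d a)
    (hab : a ≠ b) (hac : a ≠ c) (had : a ≠ d) (hbc : b ≠ c) (hbd : b ≠ d) (hcd : c ≠ d)
    (n12 : e1 ≠ e2) (n13 : e1 ≠ e3) (n14 : e1 ≠ e4) (n23 : e2 ≠ e3) (n24 : e2 ≠ e4)
    (n34 : e3 ≠ e4) : bd G e1 + (bd G e2 + (bd G e3 + bd G e4)) = 0 := by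
  obtain ⟨hE, hT⟩ := transfer hH hG
  have hsub : (({e1, e2, e3, e4} : Finset ℕ) : Set ℕ) ⊆ E(H) := by
    intro e he
    simp only [Finset.coe_insert, Finset.coe_singleton, Set.mem_insert_iff,
      Set.mem_singleton_iff] at he
    rcases he with rfl | rfl | rfl | rfl
    · exact l1.edge_mem
    · exact l2.edge_mem
    · exact l3.edge_mem
    · exact l4.edge_mem
  have hs : ∑ e ∈ ({e1, e2, e3, e4} : Finset ℕ), bd G e = 0 := by
    refine sum_zero (hE ▸ hsub) ?_ ?_
    · rw [← hT _ hsub]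
      intro h
      refine h e4 (by simp) d a l4 ?_
      have m1 : e1 ∈ (({e1, e2, e3, e4} : Finset ℕ) : Set ℕ) \ {e4} := ⟨by simp, n14⟩
      have m2 : e2 ∈ (({e1, e2, e3, e4} : Finset ℕ) : Set ℕ) \ {e4} := ⟨by simp, n24⟩
      have m3 : e3 ∈ (({e1, e2, e3, e4} : Finset ℕ) : Set ℕ) \ {e4} := ⟨by simp, n34⟩
      exact (Joined.one m3 l3.symm).trans ((Joined.one m2 l2.symm).trans (Joined.one m1 l1.symm))
    · intro e he
      rw [← hT _ (Set.sdiff_subset.trans hsub)]
      simp only [Finset.mem_insert, Finset.mem_singleton] at he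
      rcases he with rfl | rfl | rfl | rfl
      · refine (path3 l2 l3 l4 hbc hbd hab.symm hcd hac.symm had.symm).mono ?_
        intro z hz
        simp only [Finset.coe_insert, Finset.coe_singleton, Set.mem_sdiff, Set.mem_insert_iff,
          Set.mem_singleton_iff] at hz ⊢
        tauto
      · refine (path3 l3 l4 l1 hcd hac.symm hbc.symm had.symm hbd.symm hab).mono ?_
        intro z hz
        simp only [Finset.coe_insert, Finset.coe_singleton, Set.mem_sdiff, Set.mem_insert_iff,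
          Set.mem_singleton_iff] at hz ⊢
        tauto
      · refine (path3 l4 l1 l2 had.symm hbd.symm hcd.symm hab hac hbc).mono ?_
        intro z hz
        simp only [Finset.coe_insert, Finset.coe_singleton, Set.mem_sdiff, Set.mem_insert_iff,
          Set.mem_singleton_iff] at hz ⊢
        tauto
      · refine (path3 l1 l2 l3 hab hac had hbc hbd hcd).mono ?_
        intro z hz
        simp only [Finset.coe_insert, Finset.coe_singleton, Set.mem_sdiff, Set.mem_insert_iff,
          Set.mem_singleton_iff] at hz ⊢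
        tauto
  rwa [Finset.sum_insert (by simp [n12, n13, n14]), Finset.sum_insert (by simp [n23, n24]),
    Finset.sum_insert (by simp [n34]), Finset.sum_singleton] at hs

theorem par4 {P Q R S : Prop} [Decidable P] [Decidable Q] [Decidable R] [Decidable S]
    (h : (if P then (1 : ZMod 2) else 0) + ((if Q then 1 else 0) + ((if R then 1 else 0) +
      (if S then 1 else 0))) = 0) : ((P ↔ Q) ↔ (R ↔ S)) := by
  by_cases hP : P <;> by_cases hQ : Q <;> by_cases hR : R <;> by_cases hS : S <;>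
    simp only [hP, hQ, hR, hS, if_true, if_false] at h ⊢ <;>
    first | (simp; done) | (exfalso; revert h; decide)

theorem pairs4 {p d q c D g : ℕ} (h1 : p ≠ d) (h2 : q ≠ d) (h3 : c ≠ D) (h4 : D ≠ g) (h5 : p ≠ q)
    (key : ∀ z, (((z = p ∨ z = d) ↔ (z = q ∨ z = d)) ↔ ((z = D ∨ z = g) ↔ (z = c ∨ z = D)))) :
    (c = p ∧ g = q) ∨ (c = q ∧ g = p) := by
  have k1 := key p
  have k2 := key q
  have k3 := key c
  have k4 := key g
  clear key
  simp only [true_or, or_true, true_iff, iff_true] at k1 k2 k3 k4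
  grind

/-! ### The third matroid has two graphs -/

/-- the involution which exchanges the two series edges of the clauses -/
noncomputable def theta (n : ℕ) : (ℕ →₀ ZMod 2) →ₗ[ZMod 2] (ℕ →₀ ZMod 2) :=
  Finsupp.linearCombination (ZMod 2) fun v => Finsupp.single v 1 +
    if 3 + 2 * n ≤ v ∧ (v - (3 + 2 * n)) % 3 = 1 then Finsupp.single 0 1 + Finsupp.single 1 1
    else 0

theorem theta_single {n v : ℕ} (h : ¬ (3 + 2 * n ≤ v ∧ (v - (3 + 2 * n)) % 3 = 1)) :
    theta n (Finsupp.single v 1) = Finsupp.single v 1 := by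
  unfold theta
  rw [Finsupp.linearCombination_single, one_smul, if_neg h, add_zero]

theorem theta_single' {n v : ℕ} (h : 3 + 2 * n ≤ v ∧ (v - (3 + 2 * n)) % 3 = 1) :
    theta n (Finsupp.single v 1) =
      Finsupp.single v 1 + (Finsupp.single 0 1 + Finsupp.single 1 1) := by
  unfold theta
  rw [Finsupp.linearCombination_single, one_smul, if_pos h]

theorem theta_theta (n : ℕ) : (theta n) ∘ₗ (theta n) = LinearMap.id := by
  refine Finsupp.lhom_ext' fun v => LinearMap.ext_ring ?_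
  simp only [LinearMap.comp_apply, Finsupp.lsingle_apply, LinearMap.id_apply]
  by_cases h : 3 + 2 * n ≤ v ∧ (v - (3 + 2 * n)) % 3 = 1
  · rw [theta_single' h, map_add, map_add, theta_single' h, theta_single (v := 0) (by omega),
      theta_single (v := 1) (by omega), add_assoc, add_self_bd, add_zero]
  · rw [theta_single h, theta_single h]

theorem theta_inj (n : ℕ) : LinearMap.ker (theta n) = ⊥ := by
  rw [LinearMap.ker_eq_bot']
  intro x hx
  have := LinearMap.congr_fun (theta_theta n) x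
  rw [LinearMap.comp_apply, hx, map_zero] at this
  exact this.symm

theorem theta_bd {n m e : ℕ} (he : e ∈ E(Gr (PE n m) (cl n s0 true))) :
    theta n (bd (Gr (PE n m) (cl n s0 true)) e) = bd (Gr (PE n m) (cl n s0 false)) e := by
  obtain ⟨u, v, h, rfl⟩ := (mem_E PE_lt).1 he
  rw [bd_eq (link_of_mem PE_lt h), bd_eq (link_of_mem PE_lt h), map_add]
  rcases mem_PE.1 h with ⟨rfl, rfl⟩ | ⟨rfl, rfl⟩ | ⟨a, ha, rfl, rfl⟩ |
    ⟨e, he, ⟨rfl, rfl⟩ | ⟨rfl, rfl⟩⟩
  · rw [cl_lt3 (by omega), cl_lt3 (by omega), cl_lt3 (by omega), cl_lt3 (by omega),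
      theta_single (by omega), theta_single (by omega)]
  · rw [cl_lt3 (by omega), cl_lt3 (by omega), cl_lt3 (by omega), cl_lt3 (by omega),
      theta_single (by omega), theta_single (by omega)]
  · have e1 : ∀ b, cl n s0 b (3 + 2 * a) = 0 := by
      intro b
      rw [cl_lit (by omega) (by omega), if_neg]
      unfold s0
      omega
    have e2 : ∀ b, cl n s0 b (4 + 2 * a) = 1 := by
      intro b
      rw [cl_lit (by omega) (by omega), if_pos]
      unfold s0
      omega
    rw [e1, e1, e2, e2, theta_single (by omega), theta_single (by omega)]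
  · rw [cl_C, cl_C, cl_D, cl_D, if_pos rfl, if_neg (by decide), theta_single (by omega),
      theta_single' (by omega)]
    rw [add_comm (Finsupp.single (3 + 2 * n + 3 * e + 1) 1), ← add_assoc, ← add_assoc,
      two_single, zero_add]
  · rw [cl_G, cl_G, cl_D, cl_D, if_pos rfl, if_neg (by decide), theta_single' (by omega),
      theta_single (by omega)]
    have : ∀ x a b : ℕ →₀ ZMod 2, x + (a + b) + b = x + a := by
      intro x a b
      rw [add_assoc, add_assoc, add_self_bd, add_zero]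
    exact this _ _ _

theorem swap {n m : ℕ} {M : Matroid ℕ} (h : IsCycleMatroid M (Gr (PE n m) (cl n s0 true))) :
    IsCycleMatroid M (Gr (PE n m) (cl n s0 false)) := by
  have hE : E(Gr (PE n m) (cl n s0 true)) = E(Gr (PE n m) (cl n s0 false)) := by
    ext e
    rw [mem_E PE_lt, mem_E PE_lt]
  refine ⟨h.1.trans hE, fun I hI => ?_⟩
  rw [← hE] at hI
  rw [h.2 I hI, forest_iff hI, forest_iff (hE ▸ hI)]
  have h1 : LinearIndepOn (ZMod 2) (bd (Gr (PE n m) (cl n s0 false))) I ↔
      LinearIndepOn (ZMod 2) (theta n ∘ bd (Gr (PE n m) (cl n s0 true))) I := by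
    refine linearIndepOn_congr fun e he => ?_
    exact (theta_bd (hI he)).symm
  rw [h1]
  exact (LinearMap.linearIndependent_iff (theta n) (theta_inj n)
    (v := fun x : I => bd (Gr (PE n m) (cl n s0 true)) x)).symm

end Pool.Agent.R550.TM
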