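import Pool.Agent.R550.TM.Basic

/-!
# Graphs given by lists of pairs, and the graphs with the cycle matroid of a complete graph
-/

set_option autoImplicit false

namespace Pool.Agent.R550.TM

open Relation Graph

/-- the label of the pair `u < v` -/
def lab (u v : ℕ) : ℕ := v * v + u

theorem lab_inj {u v u' v' : ℕ} (h1 : u < v) (h2 : u' < v') (h : lab u v = lab u' v') :
    u = u' ∧ v = v' := by
  unfold lab at h
  have hv : v = v' := by
    rcases lt_trichotomy v v' with h3 | h3 | h3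
    · exfalso
      have := Nat.mul_le_mul (show v + 1 ≤ v' from h3) (show v + 1 ≤ v' from h3)
      nlinarith
    · exact h3
    · exfalso
      have := Nat.mul_le_mul (show v' + 1 ≤ v from h3) (show v' + 1 ≤ v from h3)
      nlinarith
  subst hv
  exact ⟨by omega, rfl⟩

/-- the list of triples of a list of pairs: the label of `(u, v)` gets the ends `π u` and `π v` -/
def gr (P : List (ℕ × ℕ)) (π : ℕ → ℕ) : List (ℕ × ℕ × ℕ) :=
  P.map fun p => (lab p.1 p.2, π p.1, π p.2)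

theorem lookup_gr {P : List (ℕ × ℕ)} {π : ℕ → ℕ} (hP : ∀ p ∈ P, p.1 < p.2) {e : ℕ} {q : ℕ × ℕ} :
    (gr P π).lookup e = some q ↔ ∃ u v, (u, v) ∈ P ∧ e = lab u v ∧ q = (π u, π v) := by
  induction P with
  | nil => simp [gr]
  | cons p P ih =>
    have ih' := ih fun p hp => hP p (List.mem_cons_of_mem _ hp)
    have h0 := hP p (List.mem_cons_self ..)
    unfold gr at ih' ⊢
    rw [List.map_cons, List.lookup_cons]
    by_cases h : e = lab p.1 p.2
    · have h1 : (e == lab p.1 p.2) = true := by simpa using h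
      rw [h1]
      simp only [Option.some.injEq]
      constructor
      · rintro rfl
        exact ⟨p.1, p.2, List.mem_cons_self .., h, rfl⟩
      · rintro ⟨u, v, h2, h3, rfl⟩
        have h4 := hP (u, v) h2
        obtain ⟨h5, h6⟩ := lab_inj h0 h4 (h.symm.trans h3)
        rw [h5, h6]
    · have h1 : (e == lab p.1 p.2) = false := by simpa using h
      rw [h1]
      simp only
      rw [ih']
      constructor
      · rintro ⟨u, v, h2, h3, h4⟩
        exact ⟨u, v, List.mem_cons_of_mem _ h2, h3, h4⟩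
      · rintro ⟨u, v, h2, h3, h4⟩
        rcases List.mem_cons.1 h2 with h5 | h5
        · exact absurd (by rw [← h5]; exact h3) h
        · exact ⟨u, v, h5, h3, h4⟩

/-- the graph of a list of pairs -/
abbrev Gr (P : List (ℕ × ℕ)) (π : ℕ → ℕ) : Graph ℕ ℕ := toGraph (gr P π)

section

variable {P : List (ℕ × ℕ)} {π : ℕ → ℕ} (hP : ∀ p ∈ P, p.1 < p.2)

include hP

theorem link_gr {e x y : ℕ} : (Gr P π).IsLink e x y ↔ ∃ u v, (u, v) ∈ P ∧ e = lab u v ∧
    ((x = π u ∧ y = π v) ∨ (x = π v ∧ y = π u)) := by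
  show (gr P π).lookup e = some (x, y) ∨ (gr P π).lookup e = some (y, x) ↔ _
  rw [lookup_gr hP, lookup_gr hP]
  constructor
  · rintro (⟨u, v, h1, h2, h3⟩ | ⟨u, v, h1, h2, h3⟩)
    · exact ⟨u, v, h1, h2, Or.inl (by simpa using h3)⟩
    · exact ⟨u, v, h1, h2, Or.inr (by simp only [Prod.mk.injEq] at h3; exact ⟨h3.2, h3.1⟩)⟩
  · rintro ⟨u, v, h1, h2, ⟨rfl, rfl⟩ | ⟨rfl, rfl⟩⟩
    · exact Or.inl ⟨u, v, h1, h2, rfl⟩
    · exact Or.inr ⟨u, v, h1, h2, rfl⟩

theorem link_of_mem {u v : ℕ} (h : (u, v) ∈ P) : (Gr P π).IsLink (lab u v) (π u) (π v) :=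
  (link_gr hP).2 ⟨u, v, h, rfl, Or.inl ⟨rfl, rfl⟩⟩

theorem mem_E {e : ℕ} : e ∈ E(Gr P π) ↔ ∃ u v, (u, v) ∈ P ∧ e = lab u v := by
  rw [edge_mem_iff_exists_isLink]
  constructor
  · rintro ⟨x, y, h⟩
    obtain ⟨u, v, h1, h2, _⟩ := (link_gr hP).1 h
    exact ⟨u, v, h1, h2⟩
  · rintro ⟨u, v, h1, rfl⟩
    exact ⟨_, _, link_of_mem hP h1⟩

theorem lab_mem_E {u v : ℕ} (h : u < v) : lab u v ∈ E(Gr P π) ↔ (u, v) ∈ P := by
  rw [mem_E hP]
  constructor
  · rintro ⟨u', v', h1, h2⟩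
    obtain ⟨rfl, rfl⟩ := lab_inj h (hP _ h1) h2
    exact h1
  · intro h1
    exact ⟨u, v, h1, rfl⟩

theorem mem_V {x : ℕ} : x ∈ V(Gr P π) ↔ ∃ u v, (u, v) ∈ P ∧ (x = π u ∨ x = π v) := by
  constructor
  · rintro ⟨e, y, h⟩
    have h' : (Gr P π).IsLink e x y := h
    obtain ⟨u, v, h1, h2, h3⟩ := (link_gr hP).1 h'
    refine ⟨u, v, h1, ?_⟩
    tauto
  · rintro ⟨u, v, h1, rfl | rfl⟩
    · exact (link_of_mem hP h1).left_mem
    · exact (link_of_mem hP h1).right_mem

theorem finite_E : E(Gr P π).Finite := by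
  refine (P.map fun p => lab p.1 p.2).finite_toSet.subset fun e he => ?_
  obtain ⟨u, v, h1, rfl⟩ := (mem_E hP).1 he
  exact List.mem_map.2 ⟨(u, v), h1, rfl⟩

theorem finite_V : V(Gr P π).Finite := by
  refine (P.flatMap fun p => [π p.1, π p.2]).finite_toSet.subset fun x hx => ?_
  obtain ⟨u, v, h1, h2⟩ := (mem_V hP).1 hx
  refine List.mem_flatMap.2 ⟨(u, v), h1, ?_⟩
  simpa using h2

end

/-- subsets -/
theorem data_of_subset {P P' : List (ℕ × ℕ)} {π : ℕ → ℕ} (hP' : ∀ p ∈ P', p.1 < p.2)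
    (hs : ∀ p ∈ P, p ∈ P') : MinorData (Gr P π) (Gr P' π) ∅ id := by
  have hP : ∀ p ∈ P, p.1 < p.2 := fun p hp => hP' p (hs p hp)
  refine ⟨?_, Set.empty_disjoint _, ?_, ?_⟩
  · intro u _ v _
    constructor
    · intro h
      have h' : u = v := h
      rw [h']
      exact ReflTransGen.refl
    · intro h
      rcases ReflTransGen.cases_head h with h | ⟨c, ⟨e, he, _⟩, _⟩
      · exact h
      · exact absurd he (Set.notMem_empty _)
  · intro x hx
    obtain ⟨u, v, h1, h2⟩ := (mem_V hP).1 hx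
    exact ⟨x, (mem_V hP').2 ⟨u, v, hs _ h1, h2⟩, rfl⟩
  · intro e x y h
    obtain ⟨u, v, h1, h2, h3⟩ := (link_gr hP).1 h
    exact ⟨x, y, (link_gr hP').2 ⟨u, v, hs _ h1, h2, h3⟩, rfl, rfl⟩

/-! ### Paths, triangles and quadrangles -/

theorem nonloop {G : Graph ℕ ℕ} {I : Set ℕ} {e x y : ℕ} (h : Forest G I) (he : e ∈ I)
    (hl : G.IsLink e x y) : x ≠ y := by
  rintro rfl
  exact h e he x x hl ReflTransGen.refl

theorem par3 {P Q R : Prop} [Decidable P] [Decidable Q] [Decidable R]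
    (h : (if P then (1 : ZMod 2) else 0) + (if Q then 1 else 0) + (if R then 1 else 0) = 0) :
    (P ↔ ¬ (Q ↔ R)) := by
  by_cases hP : P <;> by_cases hQ : Q <;> by_cases hR : R <;> simp_all
  all_goals (revert h; decide)

theorem pairs3 {x1 y1 x2 y2 x3 y3 : ℕ} (n1 : x1 ≠ y1) (n2 : x2 ≠ y2) (n3 : x3 ≠ y3)
    (key : ∀ z, ((z = x1 ∨ z = y1) ↔ ¬ ((z = x2 ∨ z = y2) ↔ (z = x3 ∨ z = y3)))) :
    (x1 = x2 ∧ y1 = x3 ∧ y2 = y3) ∨ (x1 = x2 ∧ y1 = y3 ∧ y2 = x3) ∨
      (x1 = y2 ∧ y1 = x3 ∧ x2 = y3) ∨ (x1 = y2 ∧ y1 = y3 ∧ x2 = x3) ∨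
      (y1 = x2 ∧ x1 = x3 ∧ y2 = y3) ∨ (y1 = x2 ∧ x1 = y3 ∧ y2 = x3) ∨
      (y1 = y2 ∧ x1 = x3 ∧ x2 = y3) ∨ (y1 = y2 ∧ x1 = y3 ∧ x2 = x3) := by
  have k1 := key x1
  have k2 := key y1
  have k3 := key x2
  have k4 := key y2
  have k5 := key x3
  have k6 := key y3
  clear key
  simp only [true_or, or_true, true_iff, iff_true] at k1 k2 k3 k4 k5 k6
  grind

theorem triangle {G : Graph ℕ ℕ} {e1 e2 e3 : ℕ} (h12 : e1 ≠ e2) (h13 : e1 ≠ e3) (h23 : e2 ≠ e3)
    (m1 : e1 ∈ E(G)) (m2 : e2 ∈ E(G)) (m3 : e3 ∈ E(G)) (h : ¬ Forest G {e1, e2, e3})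
    (f12 : Forest G {e1, e2}) (f13 : Forest G {e1, e3}) (f23 : Forest G {e2, e3}) :
    ∃ c p q, c ≠ p ∧ c ≠ q ∧ p ≠ q ∧ G.IsLink e1 c p ∧ G.IsLink e2 c q ∧ G.IsLink e3 p q := by
  obtain ⟨x1, y1, l1⟩ := exists_isLink_of_mem_edgeSet m1
  obtain ⟨x2, y2, l2⟩ := exists_isLink_of_mem_edgeSet m2
  obtain ⟨x3, y3, l3⟩ := exists_isLink_of_mem_edgeSet m3
  have n1 : x1 ≠ y1 := nonloop f12 (by simp) l1
  have n2 : x2 ≠ y2 := nonloop f12 (by simp) l2
  have n3 : x3 ≠ y3 := nonloop f13 (by simp) l3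
  have hs : ∑ e ∈ ({e1, e2, e3} : Finset ℕ), bd G e = 0 := by
    refine sum_zero ?_ ?_ ?_
    · intro e he
      simp only [Finset.coe_insert, Finset.coe_singleton, Set.mem_insert_iff,
        Set.mem_singleton_iff] at he
      rcases he with rfl | rfl | rfl <;> assumption
    · simpa using h
    · intro e he
      simp only [Finset.mem_insert, Finset.mem_singleton] at he
      rcases he with rfl | rfl | rfl
      · refine f23.mono ?_
        intro z hz
        simp only [Finset.coe_insert, Finset.coe_singleton, Set.mem_sdiff, Set.mem_insert_iff,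
          Set.mem_singleton_iff] at hz ⊢
        tauto
      · refine f13.mono ?_
        intro z hz
        simp only [Finset.coe_insert, Finset.coe_singleton, Set.mem_sdiff, Set.mem_insert_iff,
          Set.mem_singleton_iff] at hz ⊢
        tauto
      · refine f12.mono ?_
        intro z hz
        simp only [Finset.coe_insert, Finset.coe_singleton, Set.mem_sdiff, Set.mem_insert_iff,
          Set.mem_singleton_iff] at hz ⊢
        tauto
  rw [Finset.sum_insert (by simp [h12, h13]), Finset.sum_insert (by simp [h23]),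
    Finset.sum_singleton] at hs
  have key : ∀ z, ((z = x1 ∨ z = y1) ↔ ¬ ((z = x2 ∨ z = y2) ↔ (z = x3 ∨ z = y3))) := by
    intro z
    have h1 := DFunLike.congr_fun hs z
    rw [Finsupp.add_apply, Finsupp.add_apply, bd_apply l1 n1, bd_apply l2 n2, bd_apply l3 n3,
      Finsupp.zero_apply, ← add_assoc] at h1
    exact par3 h1
  have hh := pairs3 n1 n2 n3 key
  clear key hs h f12 f13 f23 m1 m2 m3
  rcases hh with ⟨a, b, c⟩ | ⟨a, b, c⟩ | ⟨a, b, c⟩ | ⟨a, b, c⟩ | ⟨a, b, c⟩ | ⟨a, b, c⟩ |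
    ⟨a, b, c⟩ | ⟨a, b, c⟩
  · exact ⟨x1, y1, y2, n1, by omega, by omega, l1, a ▸ l2, by rw [b, c]; exact l3⟩
  · exact ⟨x1, y1, y2, n1, by omega, by omega, l1, a ▸ l2, by rw [b, c]; exact l3.symm⟩
  · exact ⟨x1, y1, x2, n1, by omega, by omega, l1, by rw [a]; exact l2.symm,
      by rw [b, c]; exact l3⟩
  · exact ⟨x1, y1, x2, n1, by omega, by omega, l1, by rw [a]; exact l2.symm,
      by rw [b, c]; exact l3.symm⟩
  · exact ⟨y1, x1, y2, by omega, by omega, by omega, l1.symm, by rw [a]; exact l2,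
      by rw [b, c]; exact l3⟩
  · exact ⟨y1, x1, y2, by omega, by omega, by omega, l1.symm, by rw [a]; exact l2,
      by rw [b, c]; exact l3.symm⟩
  · exact ⟨y1, x1, x2, by omega, by omega, by omega, l1.symm, by rw [a]; exact l2.symm,
      by rw [b, c]; exact l3⟩
  · exact ⟨y1, x1, x2, by omega, by omega, by omega, l1.symm, by rw [a]; exact l2.symm,
      by rw [b, c]; exact l3.symm⟩

/-- the edge joining two vertices -/
def ee (u v : ℕ) : ℕ := lab (min u v) (max u v)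

theorem ee_comm (u v : ℕ) : ee u v = ee v u := by
  unfold ee
  rw [min_comm, max_comm]

theorem ee_of_lt {u v : ℕ} (h : u < v) : ee u v = lab u v := by
  unfold ee
  rw [min_eq_left h.le, max_eq_right h.le]

theorem ee_inj {u v u' v' : ℕ} (h1 : u ≠ v) (h2 : u' ≠ v') (h : ee u v = ee u' v') :
    (u = u' ∧ v = v') ∨ (u = v' ∧ v = u') := by
  obtain ⟨h3, h4⟩ := lab_inj (by omega) (by omega) h
  omega

/-- the pairs of the complete graph -/
def PK (N : ℕ) : List (ℕ × ℕ) :=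
  (List.range N).flatMap fun v => ((List.range N).filter fun u => decide (u < v)).map
    fun u => (u, v)

theorem mem_PK {N u v : ℕ} : (u, v) ∈ PK N ↔ u < v ∧ v < N := by
  simp only [PK, List.mem_flatMap, List.mem_range, List.mem_map, List.mem_filter,
    decide_eq_true_eq, Prod.mk.injEq]
  constructor
  · rintro ⟨v', h1, u', h2, rfl, rfl⟩
    exact ⟨h2.2, h1⟩
  · rintro ⟨h1, h2⟩
    exact ⟨v, h2, u, ⟨by omega, h1⟩, rfl, rfl⟩

theorem PK_lt {N : ℕ} : ∀ p ∈ PK N, p.1 < p.2 := fun p hp => (mem_PK.1 (show (p.1, p.2) ∈ _ from hp)).1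

/-- the complete graph -/
abbrev K (N : ℕ) : Graph ℕ ℕ := Gr (PK N) id

theorem link_K {N u v x y : ℕ} (h : u ≠ v) (hu : u < N) (hv : v < N) :
    (K N).IsLink (ee u v) x y ↔ (x = u ∧ y = v) ∨ (x = v ∧ y = u) := by
  rw [link_gr PK_lt]
  constructor
  · rintro ⟨u', v', h1, h2, h3⟩
    rw [mem_PK] at h1
    rw [← ee_of_lt h1.1] at h2
    simp only [id] at h3
    rcases ee_inj h (by omega) h2 with h4 | h4 <;> omega
  · intro h1
    refine ⟨min u v, max u v, mem_PK.2 ⟨by omega, by omega⟩, rfl, ?_⟩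
    simp only [id]
    omega

theorem ee_mem_K {N u v : ℕ} (h : u ≠ v) (hu : u < N) (hv : v < N) : ee u v ∈ E(K N) :=
  ((link_K h hu hv).2 (Or.inl ⟨rfl, rfl⟩)).edge_mem

theorem forest_star {N v : ℕ} (hv : v < N) {A : Set ℕ} (hA : ∀ a ∈ A, a < N ∧ a ≠ v) :
    Forest (K N) (ee v '' A) := by
  refine forest_of_cuts ?_
  rintro _ ⟨a, ha, rfl⟩
  obtain ⟨h1, h2⟩ := hA a ha
  refine ⟨a, v, (link_K h2.symm hv h1).2 (Or.inr ⟨rfl, rfl⟩), {a}, rfl, ?_, ?_⟩
  · intro h
    exact h2 (Set.mem_singleton_iff.1 h).symm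
  · rintro _ ⟨b, hb, rfl⟩ hne x y hl hx
    obtain ⟨h3, h4⟩ := hA b hb
    rw [Set.mem_singleton_iff] at hx
    rcases (link_K h4.symm hv h3).1 hl with ⟨rfl, rfl⟩ | ⟨rfl, rfl⟩
    · exact absurd hx h2.symm
    · exact absurd (by rw [hx]) hne

theorem forest_star2 {N v a b : ℕ} (hv : v < N) (ha : a < N) (hb : b < N) (h1 : a ≠ v)
    (h2 : b ≠ v) : Forest (K N) {ee v a, ee v b} := by
  have := forest_star hv (A := {a, b}) (by
    rintro x (rfl | rfl)
    · exact ⟨ha, h1⟩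
    · exact ⟨hb, h2⟩)
  rwa [Set.image_pair] at this

theorem forest_star3 {N v a b c : ℕ} (hv : v < N) (ha : a < N) (hb : b < N) (hc : c < N)
    (h1 : a ≠ v) (h2 : b ≠ v) (h3 : c ≠ v) : Forest (K N) {ee v a, ee v b, ee v c} := by
  have := forest_star hv (A := {a, b, c}) (by
    rintro x (rfl | rfl | rfl)
    · exact ⟨ha, h1⟩
    · exact ⟨hb, h2⟩
    · exact ⟨hc, h3⟩)
  rwa [Set.image_insert_eq, Set.image_pair] at this

theorem not_forest_triangle {G : Graph ℕ ℕ} {e1 e2 e3 c p q : ℕ} (h1 : G.IsLink e1 c p)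
    (h2 : G.IsLink e2 c q) (h3 : G.IsLink e3 p q) (h13 : e1 ≠ e3) (h23 : e2 ≠ e3) :
    ¬ Forest G {e1, e2, e3} := by
  intro h
  refine h e3 (by simp) p q h3 ?_
  have m1 : e1 ∈ ({e1, e2, e3} : Set ℕ) \ {e3} := ⟨by simp, h13⟩
  have m2 : e2 ∈ ({e1, e2, e3} : Set ℕ) \ {e3} := ⟨by simp, h23⟩
  exact (Joined.one m1 h1.symm).trans (Joined.one m2 h2)

/-- **The complete graph is determined by its cycle matroid.** -/
theorem rep_K {N : ℕ} (hN : 4 ≤ N) {M : Matroid ℕ} (hM : IsCycleMatroid M (K N))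
    {G : Graph ℕ ℕ} (hG : IsCycleMatroid M G) :
    ∃ w : ℕ → ℕ, (∀ u < N, ∀ v < N, w u = w v → u = v) ∧
      ∀ u < N, ∀ v < N, u ≠ v → G.IsLink (ee u v) (w u) (w v) := by
  obtain ⟨hE, hT⟩ := transfer hM hG
  have ne : ∀ {v a b : ℕ}, v ≠ a → v ≠ b → a ≠ b → ee v a ≠ ee v b := by
    intro v a b h1 h2 h3 h
    rcases ee_inj h1 h2 h with h4 | h4 <;> omega
  have share : ∀ v < N, ∀ a < N, ∀ b < N, v ≠ a → v ≠ b → a ≠ b →
      ∃ c p q, c ≠ p ∧ c ≠ q ∧ p ≠ q ∧ G.IsLink (ee v a) c p ∧ G.IsLink (ee v b) c q ∧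
        G.IsLink (ee a b) p q := by
    intro v hv a ha b hb hva hvb hab
    have m1 := ee_mem_K hva hv ha
    have m2 := ee_mem_K hvb hv hb
    have m3 := ee_mem_K hab ha hb
    have n12 : ee v a ≠ ee v b := ne hva hvb hab
    have n13 : ee v a ≠ ee a b := by
      rw [ee_comm v a]
      exact ne hva.symm hab hvb
    have n23 : ee v b ≠ ee a b := by
      rw [ee_comm v b, ee_comm a b]
      exact ne hvb.symm hab.symm hva
    refine triangle n12 n13 n23 (hE ▸ m1) (hE ▸ m2) (hE ▸ m3) ?_ ?_ ?_ ?_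
    · rw [← hT]
      · exact not_forest_triangle ((link_K hva hv ha).2 (Or.inl ⟨rfl, rfl⟩))
          ((link_K hvb hv hb).2 (Or.inl ⟨rfl, rfl⟩)) ((link_K hab ha hb).2 (Or.inl ⟨rfl, rfl⟩))
          n13 n23
      · rintro e (rfl | rfl | rfl) <;> assumption
    · rw [← hT]
      · exact forest_star2 hv ha hb hva.symm hvb.symm
      · rintro e (rfl | rfl) <;> assumption
    · rw [← hT]
      · rw [ee_comm v a]
        exact forest_star2 ha hv hb hva hab.symm
      · rintro e (rfl | rfl) <;> assumption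
    · rw [← hT]
      · rw [ee_comm v b, ee_comm a b]
        exact forest_star2 hb hv ha hvb hab
      · rintro e (rfl | rfl) <;> assumption
  have center : ∀ v, ∃ c, v < N → ∀ a < N, a ≠ v → G.Inc (ee v a) c := by
    intro v
    by_cases hv : v < N
    swap
    · exact ⟨0, fun h => absurd h hv⟩
    obtain ⟨a, b, ha, hb, hva, hvb, hab⟩ : ∃ a b, a < N ∧ b < N ∧ v ≠ a ∧ v ≠ b ∧ a ≠ b := by
      rcases Nat.lt_or_ge v 2 with h | h
      · exact ⟨2, 3, by omega, by omega, by omega, by omega, by omega⟩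
      · exact ⟨0, 1, by omega, by omega, by omega, by omega, by omega⟩
    obtain ⟨c, p, q, n1, n2, n3, l1, l2, l3⟩ := share v hv a ha b hb hva hvb hab
    refine ⟨c, fun _ d hd hdv => ?_⟩
    by_cases hda : d = a
    · subst hda
      exact ⟨p, l1⟩
    by_cases hdb : d = b
    · subst hdb
      exact ⟨q, l2⟩
    by_contra hc
    obtain ⟨c1, p1, q1, n4, n5, n6, l4, l5, l6⟩ :=
      share v hv a ha d hd hva hdv.symm (fun h => hda h.symm)
    obtain ⟨c2, p2, q2, n7, n8, n9, l7, l8, l9⟩ :=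
      share v hv b hb d hd hvb hdv.symm (fun h => hdb h.symm)
    have i1 : c1 ≠ c := by
      rintro rfl
      exact hc ⟨q1, l5⟩
    have i2 : c2 ≠ c := by
      rintro rfl
      exact hc ⟨q2, l8⟩
    have j1 : c1 = p := by
      rcases l4.left_eq_or_eq l1 with h | h
      · exact absurd h i1
      · exact h
    have j2 : c2 = q := by
      rcases l7.left_eq_or_eq l2 with h | h
      · exact absurd h i2
      · exact h
    have l10 : G.IsLink (ee v d) p q := by
      rw [← j1, ← j2]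
      rcases l8.left_eq_or_eq l5 with h | h
      · exfalso
        omega
      · rw [h]
        exact l5
    have hf : Forest G {ee v a, ee v b, ee v d} := by
      rw [← hT]
      · exact forest_star3 hv ha hb hd hva.symm hvb.symm hdv
      · rintro e (rfl | rfl | rfl)
        · exact ee_mem_K hva hv ha
        · exact ee_mem_K hvb hv hb
        · exact ee_mem_K hdv.symm hv hd
    exact not_forest_triangle l1 l2 l10 (ne hva hdv.symm (fun h => hda h.symm))
      (ne hvb hdv.symm (fun h => hdb h.symm)) hf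
  choose w hw using center
  have inj : ∀ u < N, ∀ v < N, u ≠ v → w u ≠ w v := by
    intro u hu v hv huv h
    obtain ⟨t, ht, htu, htv⟩ : ∃ t, t < N ∧ t ≠ u ∧ t ≠ v := by
      by_cases h0 : (0 : ℕ) ≠ u ∧ (0 : ℕ) ≠ v
      · exact ⟨0, by omega, h0.1, h0.2⟩
      · by_cases h1 : (1 : ℕ) ≠ u ∧ (1 : ℕ) ≠ v
        · exact ⟨1, by omega, h1.1, h1.2⟩
        · exact ⟨2, by omega, by omega, by omega⟩
    obtain ⟨c, p, q, n1, n2, n3, l1, l2, l3⟩ := share t ht u hu v hv htu htv huv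
    have i1 := hw u hu t ht htu
    have i2 := hw v hv t ht htv
    have i3 := hw u hu v hv huv.symm
    rw [ee_comm] at i1 i2
    rw [← h] at i2
    have j1 := i1.eq_or_eq_of_isLink l1
    have j2 := i2.eq_or_eq_of_isLink l2
    have j3 := i3.eq_or_eq_of_isLink l3
    omega
  refine ⟨w, fun u hu v hv h => ?_, fun u hu v hv huv => ?_⟩
  · by_contra hne
    exact inj u hu v hv hne h
  · have i1 := hw u hu v hv huv.symm
    have i2 := hw v hv u hu huv
    rw [ee_comm v u] at i2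
    obtain ⟨y, hy⟩ := i1
    rcases i2.eq_or_eq_of_isLink hy with h | h
    · exact absurd h.symm (inj u hu v hv huv)
    · rw [h]
      exact hy

end Pool.Agent.R550.TM
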