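import Pool.Agent.R550.TM.Main

/-!
# From graphs to assignments
-/

set_option autoImplicit false

namespace Pool.Agent.R550.TM

open Relation Graph

/-- a spanning tree of the second graph -/
def TT (n m : ℕ) : Set ℕ :=
  {z | (∃ v, 0 < v ∧ v < NN n m ∧ ¬ (3 + 2 * n ≤ v ∧ (v - (3 + 2 * n)) % 3 = 0) ∧ z = lab 0 v) ∨
    ∃ e < m, z = lab 1 (3 + 2 * n + 3 * e)}

section

variable {n m : ℕ} {L : ℕ → List ℕ} (H : Hyp n m L)

theorem tt_mem {v : ℕ} (h0 : 0 < v) (h1 : v < NN n m)
    (h2 : ¬ (3 + 2 * n ≤ v ∧ (v - (3 + 2 * n)) % 3 = 0)) : (0, v) ∈ PG n m L := by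
  rw [mem_PG]
  unfold NN at h1
  by_cases h3 : v < 3 + 2 * n
  · by_cases h4 : v < 3
    · have h5 : v = 1 ∨ v = 2 := by omega
      tauto
    · exact Or.inr (Or.inr (Or.inr (Or.inl ⟨v - 3, by omega, Or.inl rfl, by omega⟩)))
  · refine Or.inr (Or.inr (Or.inr (Or.inr (Or.inr ⟨(v - (3 + 2 * n)) / 3, by omega, ?_⟩))))
    have h5 : v = 3 + 2 * n + 3 * ((v - (3 + 2 * n)) / 3) + 1 ∨
        v = 3 + 2 * n + 3 * ((v - (3 + 2 * n)) / 3) + 2 := by omega
    tauto

theorem tt_mem' {e : ℕ} (he : e < m) : (1, 3 + 2 * n + 3 * e) ∈ PG n m L := by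
  rw [mem_PG]
  exact Or.inr (Or.inr (Or.inr (Or.inr (Or.inr ⟨e, he, Or.inl ⟨rfl, rfl⟩⟩))))

include H

theorem TT_sub : TT n m ⊆ E(Gr (PG n m L) id) := by
  rintro z (⟨v, h0, h1, h2, rfl⟩ | ⟨e, he, rfl⟩)
  · exact (link_of_mem (PG_lt H) (tt_mem h0 h1 h2)).edge_mem
  · exact (link_of_mem (PG_lt H) (tt_mem' he)).edge_mem

theorem forest_TT : Forest (Gr (PG n m L) id) (TT n m) := by
  have lk : ∀ {u v x y : ℕ}, (u, v) ∈ PG n m L → (Gr (PG n m L) id).IsLink (lab u v) x y →
      (x = u ∧ y = v) ∨ (x = v ∧ y = u) := fun {u v x y} h hl =>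
    hl.eq_and_eq_or_eq_and_eq (link_of_mem (π := id) (PG_lt H) h)
  refine forest_of_cuts ?_
  rintro z (⟨v, h0, h1, h2, rfl⟩ | ⟨e, he, rfl⟩)
  · have hl := link_of_mem (π := id) (PG_lt H) (tt_mem (L := L) h0 h1 h2)
    by_cases hv : v = 1
    · subst hv
      refine ⟨1, 0, hl.symm, {x | x = 1 ∨ ∃ e < m, x = 3 + 2 * n + 3 * e}, Or.inl rfl, ?_, ?_⟩
      · rintro (h | ⟨e, _, h⟩) <;> omega
      · rintro z (⟨v', h0', h1', h2', rfl⟩ | ⟨e, he, rfl⟩) hne a b hab ha
        · exfalso
          have hv' : v' ≠ 1 := by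
            rintro rfl
            exact hne rfl
          have h3 := lk (tt_mem h0' h1' h2') hab
          rcases ha with ha | ⟨e, he, ha⟩
          · omega
          · omega
        · rcases lk (tt_mem' he) hab with ⟨_, rfl⟩ | ⟨_, rfl⟩
          · exact Or.inr ⟨e, he, rfl⟩
          · exact Or.inl rfl
    · refine ⟨v, 0, hl.symm, {v}, rfl, fun h => ?_, ?_⟩
      · rw [Set.mem_singleton_iff] at h
        omega
      · rintro z (⟨v', h0', h1', h2', rfl⟩ | ⟨e, he, rfl⟩) hne a b hab ha
        · exfalso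
          rw [Set.mem_singleton_iff] at ha
          have hv' : v' ≠ v := by
            rintro rfl
            exact hne rfl
          have h3 := lk (tt_mem h0' h1' h2') hab
          omega
        · exfalso
          rw [Set.mem_singleton_iff] at ha
          have h3 := lk (tt_mem' he) hab
          omega
  · have hl := link_of_mem (π := id) (PG_lt H) (tt_mem' (L := L) he)
    refine ⟨3 + 2 * n + 3 * e, 1, hl.symm, {3 + 2 * n + 3 * e}, rfl, fun h => ?_, ?_⟩
    · rw [Set.mem_singleton_iff] at h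
      omega
    · rintro z (⟨v', h0', h1', h2', rfl⟩ | ⟨e', he', rfl⟩) hne a b hab ha
      · exfalso
        rw [Set.mem_singleton_iff] at ha
        have h3 := lk (tt_mem h0' h1' h2') hab
        omega
      · exfalso
        rw [Set.mem_singleton_iff] at ha
        have hv' : e' ≠ e := by
          rintro rfl
          exact hne rfl
        have h3 := lk (tt_mem' he') hab
        omega

theorem joined_TT {v : ℕ} (hv : v < NN n m) : Joined (K (NN n m)) (TT n m) 0 v := by
  rcases Nat.eq_zero_or_pos v with rfl | h0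
  · exact ReflTransGen.refl
  · by_cases h : 3 + 2 * n ≤ v ∧ (v - (3 + 2 * n)) % 3 = 0
    · have hN : 3 + 2 * n + 3 * m = NN n m := rfl
      have h1 : Joined (K (NN n m)) (TT n m) 0 1 :=
        Joined.one (e := lab 0 1) (Or.inl ⟨1, by omega, by omega, by omega, rfl⟩)
          (link_of_mem (π := id) PK_lt (mem_PK.2 ⟨by omega, by omega⟩))
      obtain ⟨e, rfl⟩ : ∃ e, v = 3 + 2 * n + 3 * e := ⟨(v - (3 + 2 * n)) / 3, by omega⟩
      have h2 : Joined (K (NN n m)) (TT n m) 1 (3 + 2 * n + 3 * e) :=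
        Joined.one (e := lab 1 (3 + 2 * n + 3 * e)) (Or.inr ⟨e, by omega, rfl⟩)
          (link_of_mem (π := id) PK_lt (mem_PK.2 ⟨by omega, hv⟩))
      exact h1.trans h2
    · exact Joined.one (e := lab 0 v) (Or.inl ⟨v, h0, hv, h, rfl⟩)
        (link_of_mem (π := id) PK_lt (mem_PK.2 ⟨h0, hv⟩))

/-- **The second graph is determined.** -/
theorem rep_G {M1 M2 : Matroid ℕ} {G1 G2 : Graph ℕ ℕ} (h1 : IsCycleMatroid M1 (K (NN n m)))
    (g1 : IsCycleMatroid M1 G1) (h2 : IsCycleMatroid M2 (Gr (PG n m L) id))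
    (g2 : IsCycleMatroid M2 G2) (d1 : GMinor G2 G1) :
    ∃ x : ℕ → ℕ, (∀ u < NN n m, ∀ v < NN n m, x u = x v → u = v) ∧
      ∀ u v, (u, v) ∈ PG n m L → G2.IsLink (lab u v) (x u) (x v) := by
  have hN : 3 + 2 * n + 3 * m = NN n m := rfl
  have hn := H.n1
  obtain ⟨w, hw1, hw2⟩ := rep_K (by omega) h1 g1
  obtain ⟨Z, φ, D⟩ := d1.data
  obtain ⟨hE1, hT1⟩ := transfer h1 g1
  obtain ⟨hE2, hT2⟩ := transfer h2 g2
  have hsub12 : E(Gr (PG n m L) id) ⊆ E(K (NN n m)) := by
    intro e he
    obtain ⟨u, v, h3, rfl⟩ := (mem_E (PG_lt H)).1 he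
    exact (mem_E PK_lt).2 ⟨u, v, PG_sub H _ h3, rfl⟩
  have hZ : ∀ z ∈ Z, z ∉ E(G1) := by
    intro z hz hzE
    rw [← hE1] at hzE
    obtain ⟨u, v, h3, rfl⟩ := (mem_E PK_lt).1 hzE
    have h4 := mem_PK.1 h3
    have h5 : Forest G1 (TT n m ∪ {lab u v}) := by
      refine D.forest_union (hE2 ▸ TT_sub H) (Set.singleton_subset_iff.2 hz)
        (Set.singleton_subset_iff.2 (hE1 ▸ hzE)) ?_ ?_
      · rw [← hT2 _ (TT_sub H)]
        exact forest_TT H
      · rw [← hT1 _ (Set.singleton_subset_iff.2 hzE)]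
        exact single_forest (link_of_mem (π := id) PK_lt h3) (by simp only [id]; omega)
    rw [← hT1 _ (Set.union_subset ((TT_sub H).trans hsub12) (Set.singleton_subset_iff.2 hzE))]
      at h5
    refine h5 (lab u v) (Or.inr rfl) u v (link_of_mem (π := id) PK_lt h3) ?_
    have h6 : TT n m ⊆ (TT n m ∪ {lab u v}) \ {lab u v} := by
      intro t ht
      refine ⟨Or.inl ht, ?_⟩
      intro h7
      rw [Set.mem_singleton_iff] at h7
      rw [h7] at ht
      exact Set.disjoint_left.1 D.disj hz (hE2 ▸ TT_sub H ht)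
    exact ((joined_TT H (by omega)).mono h6).symm.trans ((joined_TT H (by omega)).mono h6)
  have hinj : ∀ a ∈ V(G1), ∀ b ∈ V(G1), φ a = φ b → a = b := by
    intro a ha b hb h
    rcases ReflTransGen.cases_head ((D.cls a ha b hb).1 h) with h | ⟨c, ⟨e, he, hl⟩, _⟩
    · exact h
    · exact absurd hl.edge_mem (hZ e he)
  have hwV : ∀ u < NN n m, w u ∈ V(G1) := by
    intro u hu
    by_cases h0 : u = 0
    · exact (hw2 u hu 1 (by omega) (by omega)).left_mem
    · exact (hw2 u hu 0 (by omega) h0).left_mem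
  refine ⟨fun u => φ (w u), ?_, ?_⟩
  · intro u hu v hv h
    exact hw1 u hu v hv (hinj _ (hwV u hu) _ (hwV v hv) h)
  · intro u v huv
    have h3 := PG_bd H huv
    refine D.link' (hE2 ▸ (link_of_mem (π := id) (PG_lt H) huv).edge_mem) ?_
    have h4 := hw2 u (by omega) v h3.2 (by omega)
    rwa [ee_of_lt h3.1] at h4

/-- **Soundness.** -/
theorem sound {M1 M2 M3 M4 : Matroid ℕ} {G1 G2 G3 G4 : Graph ℕ ℕ}
    (h1 : IsCycleMatroid M1 (K (NN n m))) (g1 : IsCycleMatroid M1 G1)
    (h2 : IsCycleMatroid M2 (Gr (PG n m L) id)) (g2 : IsCycleMatroid M2 G2)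
    (h3 : IsCycleMatroid M3 (Gr (PE n m) (cl n s0 true))) (g3 : IsCycleMatroid M3 G3)
    (h4 : IsCycleMatroid M4 (Gr (PF n m) (cl n s0 true))) (g4 : IsCycleMatroid M4 G4)
    (d1 : GMinor G2 G1) (d2 : GMinor G3 G2) (d4 : GMinor G3 G4) : OC.Sat n m L := by
  classical
  have hN : 3 + 2 * n + 3 * m = NN n m := rfl
  obtain ⟨x, hx, lx⟩ := rep_G H h1 g1 h2 g2 d1
  obtain ⟨Z, ψ, D⟩ := d2.data
  obtain ⟨Z', χ, D'⟩ := d4.data
  obtain ⟨hE2, hT2⟩ := transfer h2 g2
  obtain ⟨hE3, hT3⟩ := transfer h3 g3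
  obtain ⟨hE4, hT4⟩ := transfer h4 g4
  have hxV : ∀ u < NN n m, x u ∈ V(G2) := by
    intro u hu
    obtain ⟨u', v', h5, h6⟩ := (mem_V (PG_lt H)).1 ((V_G H).2 hu)
    simp only [id] at h6
    rcases h6 with rfl | rfl
    · exact (lx _ _ h5).left_mem
    · exact (lx _ _ h5).right_mem
  obtain ⟨y, hy⟩ : ∃ y : ℕ → ℕ, y = fun u => ψ (x u) := ⟨_, rfl⟩
  have ly : ∀ u v, (u, v) ∈ PE n m → G3.IsLink (lab u v) (y u) (y v) := by
    intro u v h
    rw [hy]
    exact D.link' (hE3 ▸ (link_of_mem PE_lt h).edge_mem) (lx u v (PE_sub _ h))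
  have yy : ∀ u < NN n m, ∀ v < NN n m, (y u = y v ↔ Joined G2 Z (x u) (x v)) := by
    intro u hu v hv
    rw [hy]
    exact D.cls _ (hxV u hu) _ (hxV v hv)
  have mE : ∀ {u v : ℕ}, (u, v) ∈ PE n m → lab u v ∈ E(Gr (PE n m) (cl n s0 true)) :=
    fun h => (link_of_mem PE_lt h).edge_mem
  have p02 : (0, 2) ∈ PE n m := mem_PE.2 (Or.inl ⟨rfl, rfl⟩)
  have p12 : (1, 2) ∈ PE n m := mem_PE.2 (Or.inr (Or.inl ⟨rfl, rfl⟩))
  have l02 : (Gr (PE n m) (cl n s0 true)).IsLink (lab 0 2) 0 2 := link_of_mem PE_lt p02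
  have l12 : (Gr (PE n m) (cl n s0 true)).IsLink (lab 1 2) 1 2 := link_of_mem PE_lt p12
  -- the poles
  have hpq : y 0 ≠ y 1 := by
    intro h
    have hf : Forest G3 {lab 0 2, lab 1 2} := by
      rw [← hT3]
      · exact path2 l02.symm l12.symm (by omega) (by omega) (by omega)
      · rintro e (rfl | rfl)
        · exact mE p02
        · exact mE p12
    have hl1 := ly 0 2 p02
    have hl2 := ly 1 2 p12
    rw [← h] at hl2
    refine hf (lab 0 2) (by simp) _ _ hl1 (Joined.one ⟨by simp, ?_⟩ hl2)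
    intro h
    exact absurd (lab_inj (by omega) (by omega) h).1 (by omega)
  -- the clauses
  have hC : ∀ e < m, y (3 + 2 * n + 3 * e) = y 0 := by
    intro e he
    have pf : (3 + 2 * n + 3 * e, 3 + 2 * n + 3 * e + 1) ∈ PE n m :=
      mem_PE.2 (Or.inr (Or.inr (Or.inr ⟨e, he, Or.inl ⟨rfl, rfl⟩⟩)))
    have pg : (3 + 2 * n + 3 * e + 1, 3 + 2 * n + 3 * e + 2) ∈ PE n m :=
      mem_PE.2 (Or.inr (Or.inr (Or.inr ⟨e, he, Or.inr ⟨rfl, rfl⟩⟩)))
    have lf := link_of_mem (π := cl n s0 true) PE_lt pf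
    have lg := link_of_mem (π := cl n s0 true) PE_lt pg
    rw [cl_C, cl_D, if_pos rfl] at lf
    rw [cl_D, cl_G, if_pos rfl] at lg
    have yf := ly _ _ pf
    have yg := ly _ _ pg
    have y0 := ly _ _ p02
    have y1 := ly _ _ p12
    generalize hc : y (3 + 2 * n + 3 * e) = c at yf
    generalize hd : y (3 + 2 * n + 3 * e + 1) = d at yf yg
    generalize hg : y (3 + 2 * n + 3 * e + 2) = g at yg
    have ni : ∀ {u v u' v' : ℕ}, u < v → u' < v' → ¬ (u = u' ∧ v = v') → lab u v ≠ lab u' v' :=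
      fun h1 h2 h3 h4 => h3 (lab_inj h1 h2 h4)
    have n1 : lab 0 2 ≠ lab 1 2 := ni (by omega) (by omega) (by omega)
    have n2 : lab 0 2 ≠ lab (3 + 2 * n + 3 * e + 1) (3 + 2 * n + 3 * e + 2) :=
      ni (by omega) (by omega) (by omega)
    have n3 : lab 0 2 ≠ lab (3 + 2 * n + 3 * e) (3 + 2 * n + 3 * e + 1) :=
      ni (by omega) (by omega) (by omega)
    have n4 : lab 1 2 ≠ lab (3 + 2 * n + 3 * e + 1) (3 + 2 * n + 3 * e + 2) :=
      ni (by omega) (by omega) (by omega)
    have n5 : lab 1 2 ≠ lab (3 + 2 * n + 3 * e) (3 + 2 * n + 3 * e + 1) :=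
      ni (by omega) (by omega) (by omega)
    have n6 : lab (3 + 2 * n + 3 * e + 1) (3 + 2 * n + 3 * e + 2) ≠
        lab (3 + 2 * n + 3 * e) (3 + 2 * n + 3 * e + 1) := ni (by omega) (by omega) (by omega)
    have hs := quad_sum h3 g3 l02 l12.symm lg.symm lf.symm (by omega) (by omega) (by omega)
      (by omega) (by omega) (by omega) n1 n2 n3 n4 n5 n6
    have hf : Forest G3 {lab 0 2, lab 1 2, lab (3 + 2 * n + 3 * e) (3 + 2 * n + 3 * e + 1)} := by
      rw [← hT3]
      · refine (path3 lf.symm l02 l12.symm (by omega) (by omega) (by omega) (by omega) (by omega)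
          (by omega)).mono ?_
        intro z hz
        simp only [Set.mem_insert_iff, Set.mem_singleton_iff] at hz ⊢
        tauto
      · rintro z (rfl | rfl | rfl)
        · exact mE p02
        · exact mE p12
        · exact mE pf
    have hf' : Forest G3 {lab (3 + 2 * n + 3 * e + 1) (3 + 2 * n + 3 * e + 2)} := by
      rw [← hT3]
      · exact single_forest lg (by omega)
      · rintro z rfl
        exact mE pg
    have q1 : y 0 ≠ y 2 := nonloop hf (by simp) y0
    have q2 : y 1 ≠ y 2 := nonloop hf (by simp) y1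
    have q3 : c ≠ d := nonloop hf (by simp) yf
    have q4 : d ≠ g := nonloop hf' (by simp) yg
    have key : ∀ z, (((z = y 0 ∨ z = y 2) ↔ (z = y 1 ∨ z = y 2)) ↔
        ((z = d ∨ z = g) ↔ (z = c ∨ z = d))) := by
      intro z
      have h5 := DFunLike.congr_fun hs z
      rw [Finsupp.add_apply, Finsupp.add_apply, Finsupp.add_apply, bd_apply y0 q1,
        bd_apply y1 q2, bd_apply yg q4, bd_apply yf q3, Finsupp.zero_apply] at h5
      exact par4 h5
    have hcg := pairs4 q1 q2 q3 q4 hpq key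
    -- the two edges share a vertex
    have hsh : ∃ c', (c' = y 0 ∨ c' = y 2) ∧ (c' = c ∨ c' = d) := by
      have k02 : (Gr (PF n m) (cl n s0 true)).IsLink (lab 0 2) 0 2 :=
        link_of_mem PF_lt (PE_sub' _ p02)
      have kf := link_of_mem (π := cl n s0 true) PF_lt (PE_sub' _ pf)
      rw [cl_C, cl_D, if_pos rfl] at kf
      have px : (2, 3 + 2 * n + 3 * e + 1) ∈ PF n m := mem_PF.2 (Or.inr ⟨e, he, rfl, rfl⟩)
      have kx := link_of_mem (π := cl n s0 true) PF_lt px
      rw [cl_D, cl_lt3 (by omega)] at kx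
      have n7 : lab 0 2 ≠ lab 2 (3 + 2 * n + 3 * e + 1) := ni (by omega) (by omega) (by omega)
      have n8 : lab (3 + 2 * n + 3 * e) (3 + 2 * n + 3 * e + 1) ≠
          lab 2 (3 + 2 * n + 3 * e + 1) := ni (by omega) (by omega) (by omega)
      obtain ⟨c', p', q', _, _, _, l1, l2, _⟩ := triangle (G := G4) n3 n7 n8
        (hE4 ▸ k02.edge_mem) (hE4 ▸ kf.edge_mem) (hE4 ▸ kx.edge_mem) (by
          rw [← hT4]
          · exact not_forest_triangle k02 kf kx n7 n8
          · rintro z (rfl | rfl | rfl)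
            · exact k02.edge_mem
            · exact kf.edge_mem
            · exact kx.edge_mem) (by
          rw [← hT4]
          · exact path2 k02 kf (by omega) (by omega) (by omega)
          · rintro z (rfl | rfl)
            · exact k02.edge_mem
            · exact kf.edge_mem) (by
          rw [← hT4]
          · exact path2 k02.symm kx (by omega) (by omega) (by omega)
          · rintro z (rfl | rfl)
            · exact k02.edge_mem
            · exact kx.edge_mem) (by
          rw [← hT4]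
          · exact path2 kf.symm kx.symm (by omega) (by omega) (by omega)
          · rintro z (rfl | rfl)
            · exact kf.edge_mem
            · exact kx.edge_mem)
      have m1 := D'.link' y0.edge_mem l1
      have m2 := D'.link' yf.edge_mem l2
      refine ⟨χ c', ?_, ?_⟩
      · exact m1.left_eq_or_eq y0
      · exact m2.left_eq_or_eq yf
    obtain ⟨c', hc1, hc2⟩ := hsh
    rcases hcg with ⟨h5, _⟩ | ⟨h5, h6⟩
    · exact h5
    · exfalso
      have h7 : d = y 0 ∨ d = y 2 := by omega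
      rcases h7 with h7 | h7
      · rw [h5, h7] at yf
        exact not_forest_triangle y0.symm y1.symm yf.symm n3 n5 hf
      · rw [h5, h7] at yf
        refine hf (lab 1 2) (by simp) _ _ y1 (Joined.one ⟨by simp, ?_⟩ yf)
        exact fun h => n5 h.symm
  refine ⟨fun a => if y (3 + 2 * a) = y 0 then 4 + 2 * a else 3 + 2 * a, ?_, ?_⟩
  · intro a _
    dsimp only
    split_ifs
    · exact Or.inr rfl
    · exact Or.inl rfl
  · intro e he
    have h5 := (yy _ (by omega) 0 (by omega)).1 (hC e he)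
    have h6 : ∃ l ∈ L e, y l = y 0 := by
      rcases ReflTransGen.cases_head h5 with h6 | ⟨b', ⟨z, hz, hl⟩, hj⟩
      · have := hx _ (by omega) 0 (by omega) h6
        omega
      · have hzE : z ∈ E(G2) := hl.edge_mem
        rw [← hE2] at hzE
        obtain ⟨u, v, h7, rfl⟩ := (mem_E (PG_lt H)).1 hzE
        have h8 := PG_bd H h7
        have h9 : (u = 3 + 2 * n + 3 * e ∧ b' = x v) ∨ (v = 3 + 2 * n + 3 * e ∧ b' = x u) := by
          rcases hl.eq_and_eq_or_eq_and_eq (lx u v h7) with ⟨h9, h10⟩ | ⟨h9, h10⟩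
          · exact Or.inl ⟨(hx _ (by omega) _ (by omega) h9).symm, h10⟩
          · exact Or.inr ⟨(hx _ (by omega) _ (by omega) h9).symm, h10⟩
        have hnE : (u, v) ∉ PE n m := by
          intro h10
          exact Set.disjoint_left.1 D.disj hz (hE3 ▸ mE h10)
        rcases mem_PG.1 h7 with h | h | h | ⟨l, hl, h⟩ | ⟨a, ha, h⟩ | ⟨e', he', h⟩
        · omega
        · omega
        · omega
        · omega
        · omega
        · rcases h with h | h | h | h | h | h | ⟨h10, h11⟩
          · exfalso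
            have h12 : b' = x 1 := by
              rcases h9 with h9 | h9
              · omega
              · rw [h9.2, h.1]
            rw [h12] at hj
            exact hpq ((yy 0 (by omega) 1 (by omega)).2 (Joined.symm hj))
          · omega
          · omega
          · omega
          · exfalso
            apply hnE
            rw [mem_PE]
            exact Or.inr (Or.inr (Or.inr ⟨e', he', Or.inl h⟩))
          · omega
          · have h12 := H.lt e' he' u h10
            have h13 : e' = e := by omega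
            subst h13
            refine ⟨u, h10, ?_⟩
            have h14 : b' = x u := by
              rcases h9 with h9 | h9
              · omega
              · exact h9.2
            rw [h14] at hj
            exact (yy u (by omega) 0 (by omega)).2 hj
    obtain ⟨l, hl, hyl⟩ := h6
    refine ⟨l, hl, ?_⟩
    have h7 := H.lt e he l hl
    obtain ⟨a, ha, h8⟩ : ∃ a < n, l = 3 + 2 * a ∨ l = 4 + 2 * a :=
      ⟨(l - 3) / 2, by omega, by omega⟩
    have h9 : (l - 3) / 2 = a := by omega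
    dsimp only
    rw [h9]
    rcases h8 with rfl | rfl
    · rw [if_pos hyl]
      omega
    · rw [if_neg]
      · omega
      · intro h10
        have pa : (3 + 2 * a, 4 + 2 * a) ∈ PE n m :=
          mem_PE.2 (Or.inr (Or.inr (Or.inl ⟨a, ha, rfl, rfl⟩)))
        have la := ly _ _ pa
        have hfa : Forest G3 {lab (3 + 2 * a) (4 + 2 * a)} := by
          rw [← hT3]
          · have ka := link_of_mem (π := cl n s0 true) PE_lt pa
            refine single_forest ka ?_
            rw [cl_lit (by omega) (by omega), cl_lit (by omega) (by omega), if_neg, if_pos]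
            · omega
            · unfold s0
              omega
            · unfold s0
              omega
          · rintro z rfl
            exact mE pa
        exact nonloop hfa (by simp) la (h10.trans hyl.symm)

end

end Pool.Agent.R550.TM
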